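import Pool.Agent.H22.Sub.Defs

/-!
# Basic facts: scaling, closed subsets, sections
-/

set_option autoImplicit false

namespace Pool.Agent.H22.Sub

open MvPolynomial

variable {S I J : Type} {π : S → I} {X : Set (S → ℂ)}

/-! ### scaling -/

lemma SamePoint.refl (x : S → ℂ) : SamePoint π x x := ⟨fun _ => 1, fun _ => one_ne_zero, fun s => by simp⟩

lemma SamePoint.symm {x y : S → ℂ} (h : SamePoint π x y) : SamePoint π y x := by
  obtain ⟨c, hc, h⟩ := h
  refine ⟨fun i => (c i)⁻¹, fun i => inv_ne_zero (hc i), fun s => ?_⟩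
  rw [h s, ← mul_assoc, inv_mul_cancel₀ (hc _), one_mul]

lemma SamePoint.trans {x y z : S → ℂ} (h : SamePoint π x y) (h' : SamePoint π y z) :
    SamePoint π x z := by
  obtain ⟨c, hc, h⟩ := h
  obtain ⟨c', hc', h'⟩ := h'
  refine ⟨fun i => c' i * c i, fun i => mul_ne_zero (hc' i) (hc i), fun s => ?_⟩
  rw [h' s, h s, mul_assoc]

open Classical in
lemma weight_apply_eq (e : S →₀ ℕ) (i : I) :
    Finsupp.weight (cdeg π) e i = e.sum fun s k => if π s = i then (k : ℤ) else 0 := by
  rw [Finsupp.weight_apply, Finsupp.sum, Finset.sum_apply, Finsupp.sum]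
  refine Finset.sum_congr rfl fun s _ => ?_
  simp only [Pi.smul_apply, cdeg]
  split_ifs with h <;> simp

lemma eval_scale [Fintype I] {P : MvPolynomial S ℂ} {b : I → ℤ} (hP : MultiHom π P b)
    {c : I → ℂ} (hc : ∀ i, c i ≠ 0) (x : S → ℂ) :
    eval (fun s => c (π s) * x s) P = (∏ i, c i ^ b i) * eval x P := by
  classical
  unfold MultiHom at hP
  induction hP using IsWeightedHomogeneous.induction_on with
  | zero => simp
  | add p q hp hq h1 h2 => rw [map_add, map_add, h1, h2, mul_add]
  | monomial d k hd =>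
    subst hd
    rw [eval_monomial, eval_monomial]
    have h1 : (∏ i, c i ^ (Finsupp.weight (cdeg π) d i)) = d.prod fun s k => c (π s) ^ k := by
      have h2 : ∀ i, c i ^ (Finsupp.weight (cdeg π) d i) =
          ∏ s ∈ d.support, if π s = i then c i ^ d s else 1 := by
        intro i
        rw [weight_apply_eq, Finsupp.sum]
        have : ∀ (A : Finset S), c i ^ (∑ s ∈ A, if π s = i then (d s : ℤ) else 0) =
            ∏ s ∈ A, if π s = i then c i ^ d s else 1 := by
          intro A
          induction A using Finset.induction_on with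
          | empty => simp
          | insert s A hs ih =>
            rw [Finset.sum_insert hs, Finset.prod_insert hs, zpow_add₀ (hc i), ih]
            congr 1
            split_ifs <;> simp
        exact this _
      rw [Finset.prod_congr rfl fun i _ => h2 i, Finset.prod_comm, Finsupp.prod]
      refine Finset.prod_congr rfl fun s _ => ?_
      rw [Finset.prod_ite_eq Finset.univ (π s) (fun i => c i ^ d s)]
      simp
    rw [h1]
    simp only [mul_pow, Finsupp.prod, Finset.prod_mul_distrib]
    ring

lemma eval_samePoint [Finite I] {P : MvPolynomial S ℂ} {b : I → ℤ} (hP : MultiHom π P b)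
    {x y : S → ℂ} (h : SamePoint π x y) : eval y P = 0 ↔ eval x P = 0 := by
  have := Fintype.ofFinite I
  obtain ⟨c, hc, h⟩ := h
  have hy : y = fun s => c (π s) * x s := funext h
  rw [hy, eval_scale hP hc]
  constructor
  · intro h
    exact (mul_eq_zero.mp h).resolve_left
      (Finset.prod_ne_zero_iff.mpr fun i _ => zpow_ne_zero _ (hc i))
  · intro h
    rw [h, mul_zero]

lemma IsSub.subset {C : Set (S → ℂ)} (hC : IsSub π X C) : C ⊆ X := by
  obtain ⟨E, _, rfl⟩ := hC
  exact fun x hx => hx.1

lemma IsSub.mem_of_samePoint [Finite I] {C : Set (S → ℂ)} (hC : IsSub π X C) {x y : S → ℂ}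
    (hx : x ∈ X) (hy : y ∈ C) (h : SamePoint π x y) : x ∈ C := by
  obtain ⟨E, hE, rfl⟩ := hC
  refine ⟨hx, fun P hP => ?_⟩
  obtain ⟨b, hb⟩ := hE P hP
  exact (eval_samePoint hb h).mp (hy.2 P hP)

end Pool.Agent.H22.Sub
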