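import Mathlib

/-!
# Closed subsets of products of projective spaces: basic definitions

`I` indexes the factors, `S` indexes all the homogeneous coordinates, and `π : S → I` tells to
which factor a coordinate belongs: the homogeneous coordinates of the `i`-th projective space
are the `x s` with `π s = i`.  A subset of the product is described by its cone, a set of vectors
`x : S → ℂ`.  (The definitions follow those of helper24 for toric varieties.)
-/

set_option autoImplicit false

namespace Pool.Agent.H22.Sub

open MvPolynomial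

open Classical in
/-- The multidegree of the coordinate `x s`: the unit vector at `π s`. -/
noncomputable def cdeg {S I : Type} (π : S → I) (s : S) : I → ℤ :=
  fun i => if π s = i then 1 else 0

/-- `P` is multihomogeneous of multidegree `b`. -/
def MultiHom {S I : Type} (π : S → I) (P : MvPolynomial S ℂ) (b : I → ℤ) : Prop :=
  IsWeightedHomogeneous (cdeg π) P b

/-- The closed subset of the product of projective spaces cut out by the multihomogeneous
polynomials `E l` (its cone). -/
def Locus {S I Λ : Type} (π : S → I) (E : Λ → MvPolynomial S ℂ) : Set (S → ℂ) :=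
  {x | (∀ i, ∃ s, π s = i ∧ x s ≠ 0) ∧ ∀ l, eval x (E l) = 0}

open Classical in
/-- The polynomial `P` on the `i`-th projective space through the point `w`: the coordinates of
the other factors take the values which they have at `w`. -/
noncomputable def onFactor {S I : Type} (π : S → I) (i : I) (w : S → ℂ)
    (P : MvPolynomial S ℂ) : MvPolynomial {s // π s = i} ℂ :=
  aeval (fun s => if h : π s = i then MvPolynomial.X ⟨s, h⟩ else MvPolynomial.C (w s)) P

/-- `x` and `y` are homogeneous coordinates of the same point. -/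
def SamePoint {S I : Type} (π : S → I) (x y : S → ℂ) : Prop :=
  ∃ c : I → ℂ, (∀ i, c i ≠ 0) ∧ ∀ s, y s = c (π s) * x s

/-- `t` is a section of the line bundle `O(b)` on `X`: locally it is a quotient of two
multihomogeneous polynomials whose multidegrees differ by `b`. -/
def IsSection {S I : Type} (π : S → I) (X : Set (S → ℂ)) (b : I → ℤ) (t : (S → ℂ) → ℂ) : Prop :=
  ∀ x ∈ X, ∃ (p q : I → ℤ) (P Q : MvPolynomial S ℂ), MultiHom π P p ∧ MultiHom π Q q ∧
    p = q + b ∧ eval x Q ≠ 0 ∧ ∀ y ∈ X, eval y Q ≠ 0 → t y = eval y P / eval y Q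

/-- The line bundle `O(b)` is semiample on `X`: every point of `X` is outside the zero set of
some section of some positive multiple. -/
def IsSemiample {S I : Type} (π : S → I) (X : Set (S → ℂ)) (b : I → ℤ) : Prop :=
  ∀ x ∈ X, ∃ m : ℕ, 1 ≤ m ∧ ∃ t : (S → ℂ) → ℂ, IsSection π X (m • b) t ∧ t x ≠ 0

/-- `C` is a closed subset of `X`. -/
def IsSub {S I : Type} (π : S → I) (X C : Set (S → ℂ)) : Prop :=
  ∃ E : Set (MvPolynomial S ℂ), (∀ P ∈ E, ∃ b : I → ℤ, MultiHom π P b) ∧
    C = {x | x ∈ X ∧ ∀ P ∈ E, eval x P = 0}

/-- `C` consists of finitely many points. -/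
def FinPts {S I : Type} (π : S → I) (C : Set (S → ℂ)) : Prop :=
  ∃ E : Set (S → ℂ), E.Finite ∧ ∀ y ∈ C, ∃ z ∈ E, SamePoint π z y

/-- `C` is irreducible. -/
def IsIrred {S I : Type} (π : S → I) (C : Set (S → ℂ)) : Prop :=
  C.Nonempty ∧ ∀ (P Q : MvPolynomial S ℂ) (b c : I → ℤ), MultiHom π P b → MultiHom π Q c →
    (∀ x ∈ C, eval x P * eval x Q = 0) → (∀ x ∈ C, eval x P = 0) ∨ (∀ x ∈ C, eval x Q = 0)

/-- `C` is an irreducible curve in `X`: an irreducible closed subset which is not finite and all
of whose proper closed subsets are finite. -/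
structure IsCurve {S I : Type} (π : S → I) (X C : Set (S → ℂ)) : Prop where
  sub : IsSub π X C
  irred : IsIrred π C
  infinite : ¬ FinPts π C
  minimal : ∀ C' : Set (S → ℂ), IsSub π X C' → C' ⊆ C → C' ≠ C → FinPts π C'

/-- The line bundle `O(b)` has negative degree on the irreducible curve `C`: some positive
multiple of `O(-b)` has on `C` a nonzero section with at least one zero. -/
def NegDegree {S I : Type} (π : S → I) (C : Set (S → ℂ)) (b : I → ℤ) : Prop :=
  ∃ m : ℕ, 1 ≤ m ∧ ∃ t : (S → ℂ) → ℂ, IsSection π C (-(m • b)) t ∧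
    (∃ x ∈ C, t x ≠ 0) ∧ (∃ x ∈ C, t x = 0)

/-- The line bundle `O(b)` is nef on `X`: its degree on every irreducible curve in `X` is
nonnegative. -/
def IsNef {S I : Type} (π : S → I) (X : Set (S → ℂ)) (b : I → ℤ) : Prop :=
  ∀ C : Set (S → ℂ), IsCurve π X C → ¬ NegDegree π C b

end Pool.Agent.H22.Sub
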