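import Pool.Agent.H25.Hart.Ext
import Pool.Agent.H22.Sub.Defs

/-!
# Krull: a closed cone cut out by few equations contains many lines
-/

set_option autoImplicit false

namespace Pool.Agent.H22.Sub

open MvPolynomial H89.Hart

attribute [local instance] MvPolynomial.gradedAlgebra in
/-- minimal primes over homogeneous ideals are homogeneous -/
theorem minimalPrime_homogeneous {τ : Type} [Fintype τ] {G : Set (MvPolynomial τ ℂ)}
    (hG : ∀ g ∈ G, ∃ n, g.IsHomogeneous n) {P : Ideal (MvPolynomial τ ℂ)}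
    (hP : P ∈ (Ideal.span G).minimalPrimes) : ∀ f ∈ P, ∀ d, homogeneousComponent d f ∈ P := by
  classical
  have hPprime : P.IsPrime := hP.1.1
  have hJP : Ideal.span G ≤ P := hP.1.2
  have hcore : (P.homogeneousCore (homogeneousSubmodule τ ℂ)).toIdeal.IsPrime :=
    Ideal.IsPrime.homogeneousCore (𝒜 := homogeneousSubmodule τ ℂ) hPprime
  have hle : (P.homogeneousCore (homogeneousSubmodule τ ℂ)).toIdeal ≤ P :=
    Ideal.toIdeal_homogeneousCore_le _ _
  have hJcore : Ideal.span G ≤ (P.homogeneousCore (homogeneousSubmodule τ ℂ)).toIdeal := by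
    refine Ideal.span_le.mpr ?_
    intro g hg
    obtain ⟨d, hd⟩ := hG g hg
    exact Ideal.mem_homogeneousCore_of_homogeneous_of_mem ⟨d, hd⟩
      (hJP (Ideal.subset_span hg))
  have heq : P ≤ (P.homogeneousCore (homogeneousSubmodule τ ℂ)).toIdeal :=
    hP.2 ⟨hcore, hJcore⟩ hle
  have hPh : P.IsHomogeneous (homogeneousSubmodule τ ℂ) := by
    rw [Ideal.IsHomogeneous.iff_eq]
    exact le_antisymm hle heq
  intro f hf d
  exact homogeneousComponent_mem_of_mem hPh hf d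

/-- A nonempty subset of a projective variety of dimension `≥ card α + 1` cut out by the
equations indexed by `α` meets every hyperplane. -/
theorem exists_on_hyperplane {τ : Type} [Fintype τ] {G : Set (MvPolynomial τ ℂ)}
    (hG : ∀ g ∈ G, ∃ n, g.IsHomogeneous n) {α : Type} [Fintype α] (f : α → MvPolynomial τ ℂ)
    (hf : ∀ a, ∃ d, (f a).IsHomogeneous d) (q : τ → ℂ) (hq : ∀ g ∈ G, eval q g = 0)
    (hq' : ∀ a, eval q (f a) = 0)
    (hdim : ∀ p ∈ (Ideal.span G).minimalPrimes, (∀ g ∈ p, eval q g = 0) →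
      ((Fintype.card α + 2 : ℕ) : WithBot ℕ∞) ≤ ringKrullDim (MvPolynomial τ ℂ ⧸ p))
    (l : MvPolynomial τ ℂ) (hl : eval (0 : τ → ℂ) l = 0) :
    ∃ x : τ → ℂ, x ≠ 0 ∧ (∀ g ∈ G, eval x g = 0) ∧ (∀ a, eval x (f a) = 0) ∧ eval x l = 0 := by
  classical
  have h1 : Ideal.span G ≤ vanishingIdeal ℂ {q} := by
    refine Ideal.span_le.mpr fun g hg => ?_
    rw [SetLike.mem_coe, mem_vanishingIdeal_singleton_iff]
    simpa using hq g hg
  have hmax : (vanishingIdeal ℂ {q} : Ideal (MvPolynomial τ ℂ)).IsPrime := by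
    have : (vanishingIdeal ℂ {q} : Ideal (MvPolynomial τ ℂ)).IsMaximal := inferInstance
    exact this.isPrime
  obtain ⟨P₀, hP₀, hP₀q⟩ := Ideal.exists_minimalPrimes_le h1
  have hq0 : q ∈ cone P₀ := by
    intro g hg
    have := hP₀q hg
    rw [mem_vanishingIdeal_singleton_iff] at this
    simpa using this
  obtain ⟨P, hP, hPh, hP₀P, hfP, -, hdimP⟩ := Pool.Agent.H25.Hart.exists_component_over P₀ hP₀.1.1
    (minimalPrime_homogeneous hG hP₀) f hf q hq0 hq'
  have h2 : ((Fintype.card Unit : ℕ) : WithBot ℕ∞) < ringKrullDim (MvPolynomial τ ℂ ⧸ P) := by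
    have h3 := (hdim P₀ hP₀ hq0).trans hdimP
    by_contra hcon
    push Not at hcon
    have h4 : ((Fintype.card α + 2 : ℕ) : WithBot ℕ∞) ≤
        ((Fintype.card Unit : ℕ) : WithBot ℕ∞) + Fintype.card α := h3.trans (by gcongr)
    have h5 : ((Fintype.card α + 2 : ℕ) : WithBot ℕ∞) ≤
        ((Fintype.card Unit + Fintype.card α : ℕ) : WithBot ℕ∞) := by
      exact_mod_cast h4
    have h6 : Fintype.card α + 2 ≤ Fintype.card Unit + Fintype.card α := by
      exact_mod_cast h5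
    simp at h6
    omega
  obtain ⟨x, hx, hx0, hxl⟩ := exists_ne_zero P hP hPh (fun _ : Unit => l) (fun _ => hl) h2
  refine ⟨x, hx0, fun g hg => hx g (hP₀P (hP₀.1.2 (Ideal.subset_span hg))),
    fun a => hx _ (hfP a), hxl ()⟩

/-- The finite form: such a subset contains points outside any finite set of lines. -/
theorem exists_outside {τ : Type} [Fintype τ] {G : Set (MvPolynomial τ ℂ)}
    (hG : ∀ g ∈ G, ∃ n, g.IsHomogeneous n) {α : Type} [Fintype α] (f : α → MvPolynomial τ ℂ)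
    (hf : ∀ a, ∃ d, (f a).IsHomogeneous d) (q : τ → ℂ) (hq : ∀ g ∈ G, eval q g = 0)
    (hq' : ∀ a, eval q (f a) = 0)
    (hdim : ∀ p ∈ (Ideal.span G).minimalPrimes, (∀ g ∈ p, eval q g = 0) →
      ((Fintype.card α + 2 : ℕ) : WithBot ℕ∞) ≤ ringKrullDim (MvPolynomial τ ℂ ⧸ p))
    (E : Set (τ → ℂ)) (hE : E.Finite) :
    ∃ x : τ → ℂ, x ≠ 0 ∧ (∀ g ∈ G, eval x g = 0) ∧ (∀ a, eval x (f a) = 0) ∧
      ∀ z ∈ E, ∀ c : ℂ, x ≠ c • z := by
  classical
  have hE' : (E \ {0}).Finite := hE.subset Set.sdiff_subset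
  have := hE'.to_subtype
  obtain ⟨g, hg⟩ := Module.exists_dual_forall_apply_ne_zero (K := ℂ) (M := τ → ℂ)
    (fun z : ↥(E \ {0}) => z.1) (fun z => z.2.2)
  set l : MvPolynomial τ ℂ := ∑ s, MvPolynomial.C (g (Pi.single s 1)) * MvPolynomial.X s with hl
  have hlg : ∀ x : τ → ℂ, eval x l = g x := by
    intro x
    rw [hl, map_sum]
    have h1 : x = ∑ s, x s • (Pi.single s (1 : ℂ) : τ → ℂ) := by
      funext t
      simp [Finset.sum_apply, Pi.single_apply]
    conv_rhs => rw [h1]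
    rw [map_sum]
    refine Finset.sum_congr rfl fun s _ => ?_
    rw [map_mul, eval_C, eval_X, map_smul, smul_eq_mul, mul_comm]
  obtain ⟨x, hx0, h1, h2, h3⟩ := exists_on_hyperplane hG f hf q hq hq' hdim l
    (by rw [hlg, map_zero])
  refine ⟨x, hx0, h1, h2, fun z hz c hxz => ?_⟩
  have hz0 : z ≠ 0 := by
    rintro rfl
    exact hx0 (by rw [hxz, smul_zero])
  have hc0 : c ≠ 0 := by
    rintro rfl
    exact hx0 (by rw [hxz, zero_smul])
  rw [hlg, hxz, map_smul, smul_eq_mul] at h3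
  exact (mul_ne_zero hc0 (hg ⟨z, hz, hz0⟩)) h3

end Pool.Agent.H22.Sub
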