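import Pool.Agent.H22.Sub.Fibre
import Pool.Agent.H22.Sub.Krull

/-!
# Finite fibres: the number of equations involving a factor
-/

set_option autoImplicit false

namespace Pool.Agent.H22.Sub

open MvPolynomial

variable {S I Λ J : Type} {π : S → I} {i₀ : I} {A : Finset I}
  {H : Λ → MvPolynomial S ℂ} {F : J → MvPolynomial S ℂ} {η : Λ → I → ℕ} {d : J → I → ℕ}

theorem card_ge [Fintype S] [Fintype J] (hi₀ : i₀ ∈ A) {x : S → ℂ} (hx : x ∈ LocusA π A H F)
    (hH : ∀ l, MultiHom π (H l) (fun i => (η l i : ℤ)))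
    (hF : ∀ j, MultiHom π (F j) (fun i => (d j i : ℤ)))
    (hfin : FinPts π (fib π (LocusA π A H F) i₀ x)) (n : ℕ)
    (hn : ∀ p ∈ (Ideal.span (Set.range fun l => onFactor π i₀ x (H l))).minimalPrimes,
      (∀ g ∈ p, eval (fun s : {s // π s = i₀} => x s.1) g = 0) → ((n : ℕ) : WithBot ℕ∞) ≤ ringKrullDim (MvPolynomial {s // π s = i₀} ℂ ⧸ p)) :
    n ≤ Fintype.card {j // d j i₀ ≠ 0} + 1 := by
  classical
  by_contra hcon
  push Not at hcon
  obtain ⟨E, hE, h⟩ := fib_vectors hi₀ hx hfin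
  have hG : ∀ g ∈ Set.range (fun l => onFactor π i₀ x (H l)), ∃ n, g.IsHomogeneous n := by
    rintro _ ⟨l, rfl⟩
    exact ⟨η l i₀, onFactor_isHomogeneous x (hH l) rfl⟩
  obtain ⟨y, hy0, hyG, hyF, hyE⟩ := exists_outside hG
    (fun j : {j // d j i₀ ≠ 0} => onFactor π i₀ x (F j.1))
    (fun j => ⟨d j.1 i₀, onFactor_isHomogeneous x (hF j.1) rfl⟩)
    (fun s : {s // π s = i₀} => x s.1)
    (by
      rintro _ ⟨l, rfl⟩
      beta_reduce
      rw [eval_onFactor, glue_self]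
      exact hx.2.1 l)
    (fun j => by rw [eval_onFactor, glue_self]; exact hx.2.2.2 j.1)
    (fun p hp hpx => le_trans (by exact_mod_cast (by omega :
      Fintype.card {j // d j i₀ ≠ 0} + 2 ≤ n)) (hn p hp hpx)) E hE
  obtain ⟨z, hz, c, hc⟩ := h y hy0 (fun l => by
      rw [← eval_onFactor]
      exact hyG _ ⟨l, rfl⟩) (fun j => by
    by_cases hj : d j i₀ = 0
    · rw [eval_glue_of_zero x (hF j) (by rw [hj]; rfl)]
      exact hx.2.2.2 j
    · have h1 := hyF ⟨j, hj⟩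
      rwa [eval_onFactor] at h1)
  exact hyE z hz c hc

lemma minimalPrimes_zero {τ : Type} [Fintype τ] {G : Set (MvPolynomial τ ℂ)}
    (hG : ∀ g ∈ G, g = 0) : ∀ p ∈ (Ideal.span G).minimalPrimes,
      ((Fintype.card τ : ℕ) : WithBot ℕ∞) ≤ ringKrullDim (MvPolynomial τ ℂ ⧸ p) := by
  intro p hp
  have h0 : Ideal.span G = ⊥ := by
    rw [Ideal.span_eq_bot]
    exact hG
  rw [h0] at hp
  have h1 : p = ⊥ := by
    have h2 := IsDomain.minimalPrimes_eq_singleton_bot (MvPolynomial τ ℂ)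
    have h3 : p ∈ minimalPrimes (MvPolynomial τ ℂ) := hp
    rw [h2] at h3
    exact h3
  subst h1
  rw [ringKrullDim_eq_of_ringEquiv (RingEquiv.quotientBot (MvPolynomial τ ℂ)),
    MvPolynomial.ringKrullDim_of_isNoetherianRing]
  simp

/-- If the `H l` do not involve the factor `i₀`, their restrictions to it vanish. -/
lemma onFactor_zero {x : S → ℂ} (hx : x ∈ LocusA π A H F)
    (hH : ∀ l, MultiHom π (H l) (fun i => (η l i : ℤ))) (hη : ∀ l, η l i₀ = 0) :
    ∀ g ∈ Set.range (fun l => onFactor π i₀ x (H l)), g = 0 := by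
  rintro _ ⟨l, rfl⟩
  apply MvPolynomial.funext
  intro y
  rw [eval_onFactor, eval_glue_of_zero x (hH l) (by rw [hη l]; rfl), map_zero]
  exact hx.2.1 l

end Pool.Agent.H22.Sub
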