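import Pool.Agent.H22.Sub.Fibre

/-!
# Elimination of a factor with negative class
-/

set_option autoImplicit false

namespace Pool.Agent.H22.Sub

open MvPolynomial

lemma eval_linear {τ : Type} [Fintype τ] [DecidableEq τ] {Q : MvPolynomial τ ℂ}
    (hQ : Q.IsHomogeneous 1) (y : τ → ℂ) :
    eval y Q = ∑ t, y t * eval (Pi.single t (1 : ℂ)) Q := by
  have key : ∀ e ∈ Q.support, ∃ t, e = Finsupp.single t 1 := by
    intro e he
    have h1 : e.sum (fun _ n => n) = 1 := by
      have h2 : e.degree = 1 := by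
        rw [Finsupp.degree_eq_weight_one]
        exact hQ (mem_support_iff.mp he)
      rw [Finsupp.degree_apply] at h2
      exact h2
    exact (Finsupp.sum_eq_one_iff e).mp h1
  have h2 : ∀ y : τ → ℂ, eval y Q = ∑ e ∈ Q.support, coeff e Q * ∏ t, y t ^ e t := by
    intro y
    rw [eval_eq']
  rw [h2]
  have h3 : ∀ t, y t * eval (Pi.single t (1 : ℂ)) Q =
      ∑ e ∈ Q.support, coeff e Q * (if e = Finsupp.single t 1 then y t else 0) := by
    intro t
    rw [h2, Finset.mul_sum]
    refine Finset.sum_congr rfl fun e he => ?_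
    obtain ⟨s, rfl⟩ := key e he
    by_cases hst : s = t
    · subst hst
      rw [if_pos rfl, Finset.prod_eq_single s]
      · simp; ring
      · intro b _ hb
        rw [Finsupp.single_apply, if_neg (Ne.symm hb), pow_zero]
      · intro h; exact absurd (Finset.mem_univ s) h
    · rw [if_neg, mul_zero, Finset.prod_eq_zero (Finset.mem_univ s), mul_zero, mul_zero]
      · rw [Pi.single_apply, if_neg hst, Finsupp.single_eq_same, pow_one]
      · intro h
        exact hst (Finsupp.single_left_injective one_ne_zero h)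
  rw [Finset.sum_congr rfl fun t _ => h3 t, Finset.sum_comm]
  refine Finset.sum_congr rfl fun e he => ?_
  obtain ⟨s, rfl⟩ := key e he
  rw [← Finset.mul_sum]
  congr 1
  rw [Finset.prod_eq_single s, Finset.sum_eq_single s]
  · simp
  · intro b _ hb
    rw [if_neg]
    intro h
    exact hb (Finsupp.single_left_injective one_ne_zero h).symm
  · intro h; exact absurd (Finset.mem_univ s) h
  · intro b _ hb
    rw [Finsupp.single_apply, if_neg (Ne.symm hb), pow_zero]
  · intro h; exact absurd (Finset.mem_univ s) h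

variable {S I J : Type} {π : S → I} {i₀ : I} {F : J → MvPolynomial S ℂ} {d : J → I → ℕ}

lemma glue_glue (x : S → ℂ) (y y' : {s // π s = i₀} → ℂ) :
    glue i₀ (glue i₀ x y) y' = glue i₀ x y' := by
  funext s
  by_cases h : π s = i₀
  · have h1 := glue_of_eq (x := glue i₀ x y) (y := y') ⟨s, h⟩
    have h2 := glue_of_eq (x := x) (y := y') ⟨s, h⟩
    exact h1.trans h2.symm
  · rw [glue_of_ne h, glue_of_ne h, glue_of_ne h]

open Classical in
/-- drop the component at `i₀` -/
noncomputable def dropHom (i₀ : I) : (I → ℤ) →+ (I → ℤ) where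
  toFun a i := if i = i₀ then 0 else a i
  map_zero' := by funext i; simp
  map_add' a b := by funext i; simp only [Pi.add_apply]; split_ifs <;> simp

open Classical in
lemma dropHom_apply (a : I → ℤ) (i : I) : dropHom i₀ a i = if i = i₀ then 0 else a i := rfl

lemma dropHom_self (a : I → ℤ) : dropHom i₀ a i₀ = 0 := by
  rw [dropHom_apply, if_pos rfl]

lemma dropHom_ne (a : I → ℤ) {i : I} (h : i ≠ i₀) : dropHom i₀ a i = a i := by
  rw [dropHom_apply, if_neg h]

lemma dropHom_cdeg_eq {s : S} (h : π s = i₀) : dropHom i₀ (cdeg π s) = 0 := by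
  funext i
  by_cases hi : i = i₀
  · rw [hi, dropHom_self]; rfl
  · rw [dropHom_ne _ hi, Pi.zero_apply]
    simp only [cdeg]
    rw [if_neg]
    rw [h]
    exact fun h => hi h.symm

lemma dropHom_cdeg_ne {s : S} (h : π s ≠ i₀) : dropHom i₀ (cdeg π s) = cdeg π s := by
  funext i
  by_cases hi : i = i₀
  · rw [hi, dropHom_self]
    simp only [cdeg]
    rw [if_neg h]
  · rw [dropHom_ne _ hi]

open Classical in
/-- the coefficient of the variable `t` in the equation `P`, as a polynomial in the other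
variables -/
noncomputable def Mp (π : S → I) (i₀ : I) (P : MvPolynomial S ℂ) (t : {s // π s = i₀}) :
    MvPolynomial S ℂ :=
  aeval (fun s => if π s = i₀ then (if s = t.1 then 1 else 0) else MvPolynomial.X s) P

open Classical in
lemma eval_Mp (z : S → ℂ) (P : MvPolynomial S ℂ) (t : {s // π s = i₀}) :
    eval z (Mp π i₀ P t) = eval (glue i₀ z (Pi.single t 1)) P := by
  unfold Mp
  rw [eval_comp]
  congr 2
  funext s
  by_cases h : π s = i₀
  · rw [if_pos h]
    have h1 := glue_of_eq (x := z) (y := Pi.single t (1 : ℂ)) ⟨s, h⟩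
    rw [h1, Pi.single_apply]
    by_cases hst : s = t.1
    · rw [if_pos hst, if_pos (Subtype.ext hst), map_one]
    · rw [if_neg hst, if_neg (fun h => hst (congrArg Subtype.val h)), map_zero]
  · rw [if_neg h, glue_of_ne h, eval_X]

lemma Mp_hom {P : MvPolynomial S ℂ} {b : I → ℤ} (hP : MultiHom π P b) (t : {s // π s = i₀}) :
    MultiHom π (Mp π i₀ P t) (dropHom i₀ b) := by
  classical
  refine comp_hom (D := cdeg π) (D' := cdeg π) (φ := dropHom i₀) (fun s => ?_) hP
  split_ifs with h h1
  · rw [dropHom_cdeg_eq h]; exact isWeightedHomogeneous_one ℂ _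
  · exact isWeightedHomogeneous_zero _ _ _
  · rw [dropHom_cdeg_ne h]; exact multiHom_X s

lemma eval_glue_lin [Fintype S] [Fintype {s // π s = i₀}] {P : MvPolynomial S ℂ} {b : I → ℤ}
    (hP : MultiHom π P b) (hb : b i₀ = 1) (x : S → ℂ) (y : {s // π s = i₀} → ℂ) :
    eval (glue i₀ x y) P = ∑ t, y t * eval x (Mp π i₀ P t) := by
  classical
  have h1 := onFactor_isHomogeneous (π := π) x hP (n := 1) (by rw [hb]; rfl)
  have h2 := eval_linear h1 y
  rw [eval_onFactor] at h2
  rw [h2]
  refine Finset.sum_congr rfl fun t _ => ?_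
  rw [eval_onFactor, eval_Mp]

lemma eval_Mp_glue (z : S → ℂ) (y : {s // π s = i₀} → ℂ) (P : MvPolynomial S ℂ)
    (t : {s // π s = i₀}) : eval (glue i₀ z y) (Mp π i₀ P t) = eval z (Mp π i₀ P t) := by
  classical
  rw [eval_Mp, eval_Mp, glue_glue]

lemma det_hom {τ : Type} [Fintype τ] [DecidableEq τ] {B : Matrix τ τ (MvPolynomial S ℂ)}
    {w : τ → I → ℤ} (h : ∀ c t, MultiHom π (B c t) (w c)) : MultiHom π B.det (∑ c, w c) := by
  rw [Matrix.det_apply]
  refine IsWeightedHomogeneous.sum _ _ _ fun σ _ => ?_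
  have h1 : IsWeightedHomogeneous (cdeg π) (∏ i, B (σ i) i) (∑ c, w c) := by
    rw [← Equiv.sum_comp σ w]
    exact IsWeightedHomogeneous.prod _ _ _ fun i _ => h (σ i) i
  rcases Int.units_eq_one_or (Equiv.Perm.sign σ) with h2 | h2
  · rw [h2, one_smul]; exact h1
  · rw [h2]
    have h3 : (-1 : ℤˣ) • (∏ i, B (σ i) i) = MvPolynomial.C (-1 : ℂ) * ∏ i, B (σ i) i := by
      rw [map_neg, map_one, neg_one_mul, Units.smul_def]
      simp
    rw [h3]
    exact h1.C_mul _

end Pool.Agent.H22.Sub
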