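import Pool.Agent.H22.Sub.Transfer

/-!
# Fibres of the projection forgetting one factor
-/

set_option autoImplicit false

namespace Pool.Agent.H22.Sub

open MvPolynomial

variable {S I Λ J : Type} {π : S → I} {X : Set (S → ℂ)} {i₀ : I} {A : Finset I}
  {H : Λ → MvPolynomial S ℂ} {F : J → MvPolynomial S ℂ}

/-- The locus in the product of the factors in `A` (the other coordinates are zero). -/
def LocusA (π : S → I) (A : Finset I) (H : Λ → MvPolynomial S ℂ)
    (F : J → MvPolynomial S ℂ) : Set (S → ℂ) :=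
  {x | (∀ i ∈ A, ∃ s, π s = i ∧ x s ≠ 0) ∧ (∀ l, eval x (H l) = 0) ∧
    (∀ s, π s ∉ A → x s = 0) ∧ ∀ j, eval x (F j) = 0}

/-- the fibre through `x` of the projection forgetting the factor `i₀` -/
def fib (π : S → I) (X : Set (S → ℂ)) (i₀ : I) (x : S → ℂ) : Set (S → ℂ) :=
  {y | y ∈ X ∧ ∀ s t, π s = π t → π s ≠ i₀ → x s * y t = x t * y s}

lemma multiHom_lin {s t : S} (h : π s = π t) (a b : ℂ) :
    MultiHom π (MvPolynomial.C a * MvPolynomial.X t - MvPolynomial.C b * MvPolynomial.X s)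
      (cdeg π t) := by
  have h1 : cdeg π s = cdeg π t := by
    unfold cdeg
    rw [h]
  have h2 : MultiHom π (MvPolynomial.X s : MvPolynomial S ℂ) (cdeg π t) := by
    rw [← h1]; exact multiHom_X s
  exact IsWeightedHomogeneous.sub ((multiHom_X t).C_mul a) (h2.C_mul b)

lemma isSub_fib (x : S → ℂ) : IsSub π X (fib π X i₀ x) := by
  refine ⟨{P | ∃ s t, π s = π t ∧ π s ≠ i₀ ∧ P = MvPolynomial.C (x s) * MvPolynomial.X t -
    MvPolynomial.C (x t) * MvPolynomial.X s}, ?_, ?_⟩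
  · rintro P ⟨s, t, h, -, rfl⟩
    exact ⟨_, multiHom_lin h _ _⟩
  · ext y
    constructor
    · rintro ⟨hy, h⟩
      refine ⟨hy, ?_⟩
      rintro P ⟨s, t, h1, h2, rfl⟩
      rw [map_sub, map_mul, map_mul, eval_C, eval_C, eval_X, eval_X, h s t h1 h2, sub_self]
    · rintro ⟨hy, h⟩
      refine ⟨hy, fun s t h1 h2 => ?_⟩
      have h3 := h _ ⟨s, t, h1, h2, rfl⟩
      rw [map_sub, map_mul, map_mul, eval_C, eval_C, eval_X, eval_X] at h3
      exact sub_eq_zero.mp h3

/-- The fibres of the projection forgetting a factor at which a nef class is negative are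
finite. -/
theorem fib_finite [Finite S] {a : I → ℤ} (ha : IsNef π (LocusA π A H F) a)
    (ha0 : ∀ i, i ∉ A → a i = 0) (hi₀ : i₀ ∈ A) (hneg : a i₀ < 0) {x : S → ℂ}
    (hx : x ∈ LocusA π A H F) : FinPts π (fib π (LocusA π A H F) i₀ x) := by
  classical
  by_contra hinf
  obtain ⟨C, hCF, hC⟩ := exists_curve_in (isSub_fib x) hinf
  apply ha C hC
  have hne : Nonempty S := ⟨(hx.1 i₀ hi₀).choose⟩
  choose! t ht1 ht2 using hx.1
  have hy1 : ∀ y ∈ C, ∀ i ∈ A, i ≠ i₀ → y (t i) ≠ 0 := by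
    intro y hy i hi hi0
    obtain ⟨s, hs, hys⟩ := (hCF hy).1.1 i hi
    have h1 := (hCF hy).2 s (t i) (by rw [hs, ht1 i hi]) (by rw [hs]; exact hi0)
    intro h0
    rw [h0, mul_zero] at h1
    exact (mul_ne_zero (ht2 i hi) hys) h1.symm
  obtain ⟨z₁, hz₁⟩ := hC.irred.1
  obtain ⟨z₂, hz₂, hz⟩ : ∃ z₂ ∈ C, ¬ SamePoint π z₁ z₂ := by
    by_contra hcon
    push Not at hcon
    exact hC.infinite ⟨{z₁}, Set.finite_singleton _, fun y hy => ⟨z₁, rfl, hcon y hy⟩⟩
  obtain ⟨s₁, s₂, hs₁, hs₂, hs12⟩ : ∃ s₁ s₂, π s₁ = i₀ ∧ π s₂ = i₀ ∧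
      z₁ s₁ * z₂ s₂ - z₁ s₂ * z₂ s₁ ≠ 0 := by
    by_contra hcon
    push Not at hcon
    obtain ⟨s₀, hs₀, hzs₀⟩ := (hCF hz₁).1.1 i₀ hi₀
    obtain ⟨s', hs', hzs'⟩ := (hCF hz₂).1.1 i₀ hi₀
    have h2 : z₂ s₀ ≠ 0 := by
      intro h0
      have h3 := hcon s₀ s' hs₀ hs'
      rw [h0, mul_zero, sub_zero] at h3
      exact (mul_ne_zero hzs₀ hzs') h3
    apply hz
    refine ⟨fun i => if i = i₀ then z₂ s₀ / z₁ s₀ else if i ∈ A then z₂ (t i) / z₁ (t i) else 1,
      fun i => ?_, fun s => ?_⟩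
    · beta_reduce
      split_ifs with h3 h4
      · exact div_ne_zero h2 hzs₀
      · exact div_ne_zero (hy1 z₂ hz₂ i h4 h3) (hy1 z₁ hz₁ i h4 h3)
      · exact one_ne_zero
    · beta_reduce
      split_ifs with h3 h4
      · have h5 := hcon s₀ s hs₀ h3
        rw [div_mul_eq_mul_div, eq_div_iff hzs₀]
        linear_combination h5
      · have h5 := (hCF hz₁).2 s (t (π s)) (by rw [ht1 _ h4]) h3
        have h6 := (hCF hz₂).2 s (t (π s)) (by rw [ht1 _ h4]) h3
        have h7 := ht2 _ h4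
        have h8 := hy1 z₁ hz₁ _ h4 h3
        rw [div_mul_eq_mul_div, eq_div_iff h8]
        apply mul_left_cancel₀ h7
        linear_combination -z₁ (t (π s)) * h6 + z₂ (t (π s)) * h5
      · rw [(hCF hz₁).1.2.2.1 s h4, (hCF hz₂).1.2.2.1 s h4, mul_zero]
  set L : MvPolynomial S ℂ := MvPolynomial.C (z₁ s₁) * MvPolynomial.X s₂ -
    MvPolynomial.C (z₁ s₂) * MvPolynomial.X s₁ with hL
  have hLe : ∀ y, eval y L = z₁ s₁ * y s₂ - z₁ s₂ * y s₁ := by
    intro y
    rw [hL, map_sub, map_mul, map_mul, eval_C, eval_C, eval_X, eval_X]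
  have hLh : MultiHom π L (cdeg π s₂) := multiHom_lin (by rw [hs₁, hs₂]) _ _
  refine ⟨1, le_rfl, fun y => (eval y L) ^ ((-a i₀).toNat) *
    ∏ i ∈ A.erase i₀, (y (t i)) ^ (-a i), ?_, ⟨z₂, hz₂, ?_⟩, ⟨z₁, hz₁, ?_⟩⟩
  · have h1 : IsSection π C ((-a i₀).toNat • cdeg π s₂) (fun y => (eval y L) ^ ((-a i₀).toNat)) :=
      (isSection_poly hLh).pow _
    have h2 : IsSection π C (∑ i ∈ A.erase i₀, (-a i) • cdeg π (t i))
        (fun y => ∏ i ∈ A.erase i₀, (y (t i)) ^ (-a i)) := by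
      refine IsSection.prod _ fun i hi => ?_
      obtain ⟨hi1, hi2⟩ := Finset.mem_erase.mp hi
      have h3 : IsSection π C (cdeg π (t i)) (fun y => y (t i)) :=
        (isSection_poly (multiHom_X (t i))).congr fun y _ => by rw [eval_X]
      exact h3.zpow (fun y hy => hy1 y hy i hi2 hi1) _
    have h3 : (-a i₀).toNat • cdeg π s₂ + ∑ i ∈ A.erase i₀, (-a i) • cdeg π (t i) =
        -(1 • a) := by
      funext k
      rw [one_smul, Pi.add_apply, Pi.neg_apply, Finset.sum_apply, Pi.smul_apply]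
      have h4 : ∀ i ∈ A.erase i₀, ((-a i) • cdeg π (t i)) k = if i = k then -a k else 0 := by
        intro i hi
        obtain ⟨hi1, hi2⟩ := Finset.mem_erase.mp hi
        rw [Pi.smul_apply]
        simp only [cdeg]
        rw [ht1 i hi2]
        by_cases hik : i = k
        · rw [if_pos hik, if_pos hik, hik]; simp
        · rw [if_neg hik, if_neg hik]; simp
      rw [Finset.sum_congr rfl h4, Finset.sum_ite_eq' (A.erase i₀) k]
      simp only [cdeg]
      rw [hs₂]
      by_cases hk : i₀ = k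
      · subst hk
        rw [if_pos rfl, if_neg (by simp)]
        simp only [nsmul_eq_mul, mul_one, add_zero]
        omega
      · rw [if_neg hk]
        by_cases hkA : k ∈ A
        · rw [if_pos (Finset.mem_erase.mpr ⟨fun h => hk h.symm, hkA⟩)]
          simp
        · rw [if_neg (fun h => hkA (Finset.mem_of_mem_erase h)), ha0 k hkA]
          simp
    have h5 := h1.mul h2
    rw [h3] at h5
    exact h5
  · beta_reduce
    refine mul_ne_zero (pow_ne_zero _ ?_) (Finset.prod_ne_zero_iff.mpr fun i hi => ?_)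
    · rw [hLe]; exact hs12
    · obtain ⟨hi1, hi2⟩ := Finset.mem_erase.mp hi
      exact zpow_ne_zero _ (hy1 z₂ hz₂ i hi2 hi1)
  · beta_reduce
    have h1 : eval z₁ L = 0 := by rw [hLe]; ring
    rw [h1, zero_pow (by omega), zero_mul]

open Classical in
/-- replace the coordinates of the factor `i₀` of `x` by `y` -/
noncomputable def glue (i₀ : I) (x : S → ℂ) (y : {s // π s = i₀} → ℂ) : S → ℂ :=
  fun s => if h : π s = i₀ then y ⟨s, h⟩ else x s

lemma glue_of_eq {x : S → ℂ} {y : {s // π s = i₀} → ℂ} (s : {s // π s = i₀}) :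
    glue i₀ x y s.1 = y s := by
  unfold glue
  rw [dif_pos s.2]

lemma glue_of_ne {x : S → ℂ} {y : {s // π s = i₀} → ℂ} {s : S} (h : π s ≠ i₀) :
    glue i₀ x y s = x s := by
  unfold glue
  rw [dif_neg h]

lemma glue_self (x : S → ℂ) : glue i₀ x (fun s : {s // π s = i₀} => x s.1) = x := by
  funext s
  unfold glue
  split_ifs <;> rfl

/-- Vectors in the fibre. -/
theorem fib_vectors (hi₀ : i₀ ∈ A) {x : S → ℂ} (hx : x ∈ LocusA π A H F)
    (hfin : FinPts π (fib π (LocusA π A H F) i₀ x)) :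
    ∃ E : Set ({s // π s = i₀} → ℂ), E.Finite ∧ ∀ y : {s // π s = i₀} → ℂ, y ≠ 0 →
      (∀ l, eval (glue i₀ x y) (H l) = 0) → (∀ j, eval (glue i₀ x y) (F j) = 0) →
        ∃ z ∈ E, ∃ c : ℂ, y = c • z := by
  classical
  obtain ⟨E, hE, h⟩ := hfin
  refine ⟨(fun (x : S → ℂ) (s : {s // π s = i₀}) => x s.1) '' E, hE.image _, ?_⟩
  intro y hy0 hyH hyF
  have hmem : glue i₀ x y ∈ fib π (LocusA π A H F) i₀ x := by
    refine ⟨⟨fun i hi => ?_, hyH, fun s hs => ?_, hyF⟩, fun s t hst hs => ?_⟩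
    · by_cases hii : i = i₀
      · subst hii
        obtain ⟨s, hs⟩ := Function.ne_iff.mp hy0
        exact ⟨s.1, s.2, by rw [glue_of_eq]; exact hs⟩
      · obtain ⟨s, hs, hxs⟩ := hx.1 i hi
        exact ⟨s, hs, by rw [glue_of_ne (by rw [hs]; exact hii)]; exact hxs⟩
    · rw [glue_of_ne]
      · exact hx.2.2.1 s hs
      · rintro rfl
        exact hs hi₀
    · rw [glue_of_ne hs, glue_of_ne (by rw [← hst]; exact hs), mul_comm]
  obtain ⟨z, hz, c, hc, hzc⟩ := h _ hmem
  refine ⟨_, ⟨z, hz, rfl⟩, c i₀, ?_⟩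
  funext s
  have h1 := hzc s.1
  rw [glue_of_eq, s.2] at h1
  exact h1

/-! ### specialization -/

lemma eval_onFactor (x : S → ℂ) (P : MvPolynomial S ℂ) (y : {s // π s = i₀} → ℂ) :
    eval y (onFactor π i₀ x P) = eval (glue i₀ x y) P := by
  classical
  unfold onFactor
  rw [eval_comp]
  congr 2
  funext s
  unfold glue
  split_ifs <;> simp

lemma isHomogeneous_of_int {τ : Type} {Q : MvPolynomial τ ℂ} {n : ℕ}
    (h : IsWeightedHomogeneous (fun _ : τ => (1 : ℤ)) Q (n : ℤ)) : Q.IsHomogeneous n := by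
  intro e he
  have h1 := h he
  have h2 : Finsupp.weight (fun _ : τ => (1 : ℤ)) e = ((Finsupp.weight (1 : τ → ℕ) e : ℕ) : ℤ) := by
    rw [Finsupp.weight_apply, Finsupp.weight_apply, Finsupp.sum, Finsupp.sum]
    simp
  rw [h2] at h1
  exact_mod_cast h1

lemma onFactor_isHomogeneous (x : S → ℂ) {P : MvPolynomial S ℂ} {b : I → ℤ} (hP : MultiHom π P b)
    {n : ℕ} (hn : b i₀ = n) : (onFactor π i₀ x P).IsHomogeneous n := by
  classical
  apply isHomogeneous_of_int
  rw [← hn]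
  refine comp_hom (D := cdeg π) (φ := Pi.evalAddMonoidHom (fun _ : I => ℤ) i₀) (fun s => ?_) hP
  change IsWeightedHomogeneous _ _ (cdeg π s i₀)
  simp only [cdeg]
  split_ifs with h
  · exact isWeightedHomogeneous_X ℂ _ _
  · exact isWeightedHomogeneous_C _ _

/-- a polynomial of degree zero in a factor does not depend on the coordinates of the factor -/
lemma eval_glue_of_zero (x : S → ℂ) {P : MvPolynomial S ℂ} {b : I → ℤ} (hP : MultiHom π P b)
    (hb : b i₀ = 0) (y : {s // π s = i₀} → ℂ) : eval (glue i₀ x y) P = eval x P := by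
  have h1 := onFactor_isHomogeneous (π := π) x hP (n := 0) (by rw [hb]; rfl)
  have h3 := totalDegree_eq_zero_iff_eq_C.mp (Nat.le_zero.mp h1.totalDegree_le)
  have h2 : ∀ y, eval y (onFactor π i₀ x P) = coeff 0 (onFactor π i₀ x P) := by
    intro y
    rw [h3]
    simp
  rw [← eval_onFactor, h2, ← h2 (fun s => x s.1), eval_onFactor, glue_self]

lemma glue_comm {i : I} (hi : i ≠ i₀) (x : S → ℂ) (y : {s // π s = i₀} → ℂ)
    (y' : {s // π s = i} → ℂ) : glue i (glue i₀ x y) y' = glue i₀ (glue i x y') y := by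
  funext s
  by_cases h : π s = i₀
  · have h1 := glue_of_eq (x := glue i x y') (y := y) ⟨s, h⟩
    have h2 := glue_of_eq (x := x) (y := y) ⟨s, h⟩
    have h3 : π s ≠ i := by rw [h]; exact fun h => hi h.symm
    rw [glue_of_ne h3]
    exact h2.trans h1.symm
  · rw [glue_of_ne (i₀ := i₀) h]
    by_cases h' : π s = i
    · have h1 := glue_of_eq (x := glue i₀ x y) (y := y') ⟨s, h'⟩
      have h2 := glue_of_eq (x := x) (y := y') ⟨s, h'⟩
      exact h1.trans h2.symm
    · rw [glue_of_ne h', glue_of_ne h', glue_of_ne h]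

/-- The restriction of a polynomial which does not involve the factor `i₀` to a factor does not
depend on the coordinates of the factor `i₀`. -/
lemma onFactor_glue [Finite S] {i : I} (hi : i ≠ i₀) (x : S → ℂ) {P : MvPolynomial S ℂ}
    {b : I → ℤ} (hP : MultiHom π P b) (hb : b i₀ = 0) (y : {s // π s = i₀} → ℂ) :
    onFactor π i (glue i₀ x y) P = onFactor π i x P := by
  classical
  apply MvPolynomial.funext
  intro y'
  rw [eval_onFactor, eval_onFactor, glue_comm hi, eval_glue_of_zero _ hP hb]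

end Pool.Agent.H22.Sub
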