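import Pool.Agent.H22.Sub.Step
import Pool.Agent.H22.Sub.Count

/-!
# The main theorem
-/

set_option autoImplicit false

namespace Pool.Agent.H22.Sub

open MvPolynomial

variable {S I Λ : Type} {π : S → I} {H : Λ → MvPolynomial S ℂ} {η : Λ → I → ℕ}

/-- nonnegative classes are semiample -/
lemma semiample_of_nonneg {J : Type} {F : J → MvPolynomial S ℂ} {A : Finset I} {a : I → ℤ}
    (ha0 : ∀ i, i ∉ A → a i = 0) (ha : ∀ i ∈ A, 0 ≤ a i) :
    IsSemiample π (LocusA π A H F) a := by
  classical
  intro x hx
  by_cases hne : Nonempty S
  · choose! t ht1 ht2 using hx.1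
    refine ⟨1, le_rfl, fun y => ∏ i ∈ A, (y (t i)) ^ (a i).toNat, ?_, ?_⟩
    · have h2 : IsSection π (LocusA π A H F) (∑ i ∈ A, (a i).toNat • cdeg π (t i))
          (fun y => ∏ i ∈ A, (y (t i)) ^ (a i).toNat) := by
        refine IsSection.prod _ fun i hi => ?_
        have h3 : IsSection π (LocusA π A H F) (cdeg π (t i)) (fun y => y (t i)) :=
          (isSection_poly (multiHom_X (t i))).congr fun y _ => by rw [eval_X]
        exact h3.pow _
      have h3 : ∑ i ∈ A, (a i).toNat • cdeg π (t i) = 1 • a := by
        funext k
        rw [one_smul, Finset.sum_apply]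
        have h4 : ∀ i ∈ A, ((a i).toNat • cdeg π (t i)) k = if i = k then a k else 0 := by
          intro i hi
          rw [Pi.smul_apply]
          simp only [cdeg]
          rw [ht1 i hi]
          by_cases hik : i = k
          · rw [if_pos hik, if_pos hik, hik]
            have := ha k (by rw [← hik]; exact hi)
            simp only [nsmul_eq_mul, mul_one]
            omega
          · rw [if_neg hik, if_neg hik]; simp
        rw [Finset.sum_congr rfl h4, Finset.sum_ite_eq' A k]
        by_cases hk : k ∈ A
        · rw [if_pos hk]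
        · rw [if_neg hk, ha0 k hk]
      rw [h3] at h2
      exact h2
    · exact Finset.prod_ne_zero_iff.mpr fun i hi => pow_ne_zero _ (ht2 i hi)
  · have hA : A = ∅ := by
      rw [Finset.eq_empty_iff_forall_notMem]
      intro i hi
      exact hne ⟨(hx.1 i hi).choose⟩
    have h0 : 1 • a = 0 := by
      funext i
      rw [one_smul, ha0 i (by rw [hA]; exact Finset.notMem_empty i)]
      rfl
    refine ⟨1, le_rfl, fun _ => 1, ?_, one_ne_zero⟩
    rw [h0]
    exact IsSection.one

theorem main [Fintype S] [Finite I] (hH : ∀ l, MultiHom π (H l) (fun i => (η l i : ℤ)))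
    (r : I → ℤ) :
    ∀ (n : ℕ) (A : Finset I), A.card = n → (∀ l, ∀ i, i ∉ A → η l i = 0) →
      ∀ (J : Type) [Fintype J] (F : J → MvPolynomial S ℂ)
      (d : J → I → ℕ), (∀ j, MultiHom π (F j) (fun i => (d j i : ℤ))) →
      (∀ i ∈ A, 0 < r i → ((∀ l, η l i = 0) ∧ r i ≤ Nat.card {s // π s = i}) ∨
        ∀ x ∈ LocusA π A H F,
          ∀ p ∈ (Ideal.span (Set.range fun l => onFactor π i x (H l))).minimalPrimes,
            (∀ g ∈ p, eval (fun s : {s // π s = i} => x s.1) g = 0) →
            (((r i).toNat + 1 : ℕ) : WithBot ℕ∞) ≤
              ringKrullDim (MvPolynomial {s // π s = i} ℂ ⧸ p)) →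
      (∀ j, ∀ i, i ∉ A → d j i = 0) → ∀ a : I → ℤ, (∀ i, i ∉ A → a i = 0) →
      (∀ i ∈ A, ∑ j, (d j i : ℤ) - r i ≤ a i) → IsNef π (LocusA π A H F) a →
        IsSemiample π (LocusA π A H F) a := by
  classical
  intro n
  induction n with
  | zero =>
    intro A hA hη J _ F d hF hr hd a ha0 ha hnef
    rw [Finset.card_eq_zero] at hA
    subst hA
    exact semiample_of_nonneg ha0 (fun i hi => absurd hi (Finset.notMem_empty i))
  | succ n ih =>
    intro A hA hη J _ F d hF hr hd a ha0 ha hnef
    by_cases hneg : ∃ i ∈ A, a i < 0
    · obtain ⟨i₀, hi₀, hlt⟩ := hneg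
      by_cases hX : (LocusA π A H F).Nonempty
      · obtain ⟨x, hx⟩ := hX
        have hfin : ∀ x ∈ LocusA π A H F, FinPts π (fib π (LocusA π A H F) i₀ x) :=
          fun x hx => fib_finite hnef ha0 hi₀ hlt hx
        have hle : (Fintype.card {j // d j i₀ ≠ 0} : ℤ) ≤ ∑ j, (d j i₀ : ℤ) ∧
            ((Fintype.card {j // d j i₀ ≠ 0} : ℤ) = ∑ j, (d j i₀ : ℤ) →
              ∀ j, d j i₀ ≠ 0 → d j i₀ = 1) := by
          have h1 : (Fintype.card {j // d j i₀ ≠ 0} : ℤ) =
              ∑ j, (if d j i₀ ≠ 0 then (1 : ℤ) else 0) := by
            rw [Fintype.card_subtype, Finset.card_filter]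
            push_cast
            rfl
          have h2 : ∀ j ∈ Finset.univ, (if d j i₀ ≠ 0 then (1 : ℤ) else 0) ≤ (d j i₀ : ℤ) := by
            intro j _
            split_ifs with h <;> omega
          rw [h1]
          refine ⟨Finset.sum_le_sum h2, fun heq j hj => ?_⟩
          have h3 := (Finset.sum_eq_sum_iff_of_le h2).mp heq j (Finset.mem_univ j)
          rw [if_pos hj] at h3
          exact_mod_cast h3.symm
        have hai := ha i₀ hi₀
        have hri : 0 < r i₀ := by
          have h2 := hle.1
          have h3 : (0 : ℤ) ≤ Fintype.card {j // d j i₀ ≠ 0} := Int.natCast_nonneg _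
          omega
        rcases hr i₀ hi₀ hri with ⟨hη0, hrc⟩ | hrS
        · -- a free factor
          have h1 := card_ge hi₀ hx hH hF (hfin x hx) (Fintype.card {s // π s = i₀})
            (fun p hp _ => minimalPrimes_zero (onFactor_zero hx hH hη0) p hp)
          rw [Nat.card_eq_fintype_card] at hrc
          have h1' : (Fintype.card {s // π s = i₀} : ℤ) ≤
              Fintype.card {j // d j i₀ ≠ 0} + 1 := by exact_mod_cast h1
          have hcard : Fintype.card {s // π s = i₀} = Fintype.card {j // d j i₀ ≠ 0} + 1 := by
            have h2 := hle.1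
            omega
          have hone : ∀ j, d j i₀ ≠ 0 → d j i₀ = 1 := by
            apply hle.2
            have h2 := hle.1
            omega
          have ham : a i₀ = -1 := by
            have h2 := hle.1
            omega
          have L : Lin π i₀ A H F d :=
            ⟨hi₀, hF, fun l => ⟨_, hH l, by rw [hη0 l]; rfl⟩, hone, hfin⟩
          let e : {s // π s = i₀} ≃ Option {j // d j i₀ ≠ 0} :=
            Fintype.equivOfCardEq (by rw [Fintype.card_option]; exact hcard)
          have T := L.trans (e := e)
          obtain ⟨u, hu, hu0⟩ := L.unit e ham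
          have hnef' := T.nef hu hu0 hnef
          have hsum : ∀ i, i ≠ i₀ → dl d i₀ i = ∑ j : {j // d j i₀ ≠ 0}, (d j.1 i : ℤ) := by
            intro i hi
            unfold dl
            rw [Finset.sum_apply]
            exact Finset.sum_congr rfl fun j _ => dropHom_ne _ hi
          have hpa : ∀ i, i ≠ i₀ → ph i₀ (dl d i₀) a i =
              a i - ∑ j : {j // d j i₀ ≠ 0}, (d j.1 i : ℤ) := by
            intro i hi
            rw [ph_apply, Pi.add_apply, Pi.smul_apply, dropHom_ne _ hi, hsum i hi, ham]
            simp [sub_eq_add_neg]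
          have hpa0 : ph i₀ (dl d i₀) a i₀ = 0 := by
            rw [ph_apply, Pi.add_apply, Pi.smul_apply, dropHom_self]
            have h2 : dl d i₀ i₀ = 0 := by
              unfold dl
              rw [Finset.sum_apply]
              exact Finset.sum_eq_zero fun j _ => dropHom_self _
            rw [h2]; simp
          have hmem : ∀ i, i ∉ A.erase i₀ → i = i₀ ∨ i ∉ A := by
            intro i hi
            by_cases hii : i = i₀
            · exact Or.inl hii
            · exact Or.inr fun h => hi (Finset.mem_erase.mpr ⟨hii, h⟩)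
          have hr' : ∀ i ∈ A.erase i₀, 0 < r i →
              ((∀ l, η l i = 0) ∧ r i ≤ Nat.card {s // π s = i}) ∨
              ∀ z ∈ LocusA π (A.erase i₀) H (fun j : {j // d j i₀ = 0} => F j.1),
                ∀ p ∈ (Ideal.span (Set.range fun l => onFactor π i z (H l))).minimalPrimes,
                  (∀ g ∈ p, eval (fun s : {s // π s = i} => z s.1) g = 0) →
                  (((r i).toNat + 1 : ℕ) : WithBot ℕ∞) ≤
                    ringKrullDim (MvPolynomial {s // π s = i} ℂ ⧸ p) := by
            intro i hi hri
            obtain ⟨hi1, hi2⟩ := Finset.mem_erase.mp hi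
            rcases hr i hi2 hri with h | h
            · exact Or.inl h
            · right
              intro z hz
              have h2 := h _ (T.hσ z hz)
              rw [pm_sg] at h2
              have h3 : (fun l => onFactor π i
                  (glue i₀ z (fun t => eval z (Dl F d e t))) (H l)) =
                  fun l => onFactor π i z (H l) := by
                funext l
                exact onFactor_glue hi1 z (hH l) (by rw [hη0 l]; rfl) _
              have h4 : (fun s : {s // π s = i} =>
                  glue i₀ z (fun t => eval z (Dl F d e t)) s.1) = fun s => z s.1 :=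
                funext fun s => glue_of_ne (by rw [s.2]; exact hi1)
              rw [h3, h4] at h2
              exact h2
          have hS := ih (A.erase i₀) (by rw [Finset.card_erase_of_mem hi₀, hA]; rfl)
            (fun l i hi => by
              rcases hmem i hi with h | h
              · rw [h]; exact hη0 l
              · exact hη l i h)
            {j // d j i₀ = 0} (fun j => F j.1) (fun j => d j.1) (fun j => hF j.1) hr'
            (fun j i hi => by
              rcases hmem i hi with h | h
              · rw [h]; exact j.2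
              · exact hd j.1 i h)
            (ph i₀ (dl d i₀) a)
            (fun i hi => by
              by_cases hii : i = i₀
              · rw [hii]; exact hpa0
              · have hiA : i ∉ A := fun h => hi (Finset.mem_erase.mpr ⟨hii, h⟩)
                rw [hpa i hii, ha0 i hiA, Finset.sum_eq_zero, sub_zero]
                intro j _
                rw [hd j.1 i hiA]; rfl)
            (fun i hi => by
              obtain ⟨hi1, hi2⟩ := Finset.mem_erase.mp hi
              rw [hpa i hi1]
              have h2 := Fintype.sum_subtype_add_sum_subtype (fun j => d j i₀ = 0)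
                (fun j => (d j i : ℤ))
              have h3 := ha i hi2
              rw [← h2] at h3
              linarith) hnef'
          have h3 := semiample_shift hu hu0 (T.semiample hS)
          have h4 : dropHom i₀ (ph i₀ (dl d i₀) a) +
              (a - dropHom i₀ (ph i₀ (dl d i₀) a)) = a := by abel
          rwa [h4] at h3
        · exfalso
          have h1 := card_ge hi₀ hx hH hF (hfin x hx) ((r i₀).toNat + 1) (hrS x hx)
          have h2 := hle.1
          omega
      · rw [Set.not_nonempty_iff_eq_empty] at hX
        rw [hX]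
        exact fun x hx => absurd hx (Set.notMem_empty x)
    · push Not at hneg
      exact semiample_of_nonneg ha0 hneg

/-- The main theorem. -/
theorem semiample_of_nef {J : Type} [Fintype S] [Fintype I] [Fintype J] (π : S → I)
    (H : Λ → MvPolynomial S ℂ) (η : Λ → I → ℕ)
    (hH : ∀ l, MultiHom π (H l) (fun i => (η l i : ℤ)))
    (F : J → MvPolynomial S ℂ) (d : J → I → ℕ)
    (hF : ∀ j, MultiHom π (F j) (fun i => (d j i : ℤ))) (r : I → ℤ)
    (hr : ∀ i, 0 < r i → ((∀ l, η l i = 0) ∧ r i ≤ Nat.card {s // π s = i}) ∨
      ∀ x ∈ Locus π (Sum.elim H F),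
        ∀ p ∈ (Ideal.span (Set.range fun l => onFactor π i x (H l))).minimalPrimes,
          (∀ g ∈ p, eval (fun s : {s // π s = i} => x s.1) g = 0) →
          (((r i).toNat + 1 : ℕ) : WithBot ℕ∞) ≤
            ringKrullDim (MvPolynomial {s // π s = i} ℂ ⧸ p))
    (a : I → ℤ) (ha : ∀ i, ∑ j, (d j i : ℤ) - r i ≤ a i)
    (hnef : IsNef π (Locus π (Sum.elim H F)) a) : IsSemiample π (Locus π (Sum.elim H F)) a := by
  classical
  have h1 : Locus π (Sum.elim H F) = LocusA π Finset.univ H F := by
    ext x
    constructor
    · rintro ⟨h1, h2⟩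
      exact ⟨fun i _ => h1 i, fun l => h2 (Sum.inl l), fun s hs => absurd (Finset.mem_univ _) hs,
        fun j => h2 (Sum.inr j)⟩
    · rintro ⟨h1, h2, -, h3⟩
      exact ⟨fun i => h1 i (Finset.mem_univ i), fun l => Sum.casesOn l h2 h3⟩
  rw [h1] at hnef hr ⊢
  exact main hH r _ Finset.univ rfl (fun l i hi => absurd (Finset.mem_univ i) hi)
    J F d hF (fun i _ hi => hr i hi)
    (fun j i hi => absurd (Finset.mem_univ i) hi) a
    (fun i hi => absurd (Finset.mem_univ i) hi) (fun i _ => ha i) hnef

end Pool.Agent.H22.Sub
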