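import Pool.Agent.H22.Sub.Elim

/-!
# The maximal minors of the matrix of the equations involving a factor
-/

set_option autoImplicit false
set_option linter.unusedSectionVars false

namespace Pool.Agent.H22.Sub

open MvPolynomial

variable {S I J : Type} {π : S → I} {i₀ : I} {F : J → MvPolynomial S ℂ} {d : J → I → ℕ}

/-- the matrix of coefficients, with one zero row added -/
noncomputable def Bm (F : J → MvPolynomial S ℂ) (d : J → I → ℕ)
    (e : {s // π s = i₀} ≃ Option {j // d j i₀ ≠ 0}) :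
    Matrix {s // π s = i₀} {s // π s = i₀} (MvPolynomial S ℂ) :=
  Matrix.of fun c t => (e c).elim 0 (fun j => Mp π i₀ (F j.1) t)

open Classical in
/-- the maximal minors -/
noncomputable def Dl [Fintype {s // π s = i₀}] (F : J → MvPolynomial S ℂ) (d : J → I → ℕ)
    (e : {s // π s = i₀} ≃ Option {j // d j i₀ ≠ 0}) (t : {s // π s = i₀}) :
    MvPolynomial S ℂ :=
  (Bm F d e).adjugate t (e.symm none)

variable [Fintype {s // π s = i₀}] {e : {s // π s = i₀} ≃ Option {j // d j i₀ ≠ 0}}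

/-- the multidegree of the minors -/
noncomputable def dl (d : J → I → ℕ) (i₀ : I) [Fintype {j // d j i₀ ≠ 0}] : I → ℤ :=
  ∑ j : {j // d j i₀ ≠ 0}, dropHom i₀ (fun i => (d j.1 i : ℤ))

lemma Dl_hom [Fintype {j // d j i₀ ≠ 0}] (hF : ∀ j, MultiHom π (F j) (fun i => (d j i : ℤ)))
    (t : {s // π s = i₀}) : MultiHom π (Dl F d e t) (dl d i₀) := by
  classical
  have h1 : dl d i₀ = ∑ c : {s // π s = i₀}, (e c).elim (0 : I → ℤ)
      (fun j => dropHom i₀ (fun i => (d j.1 i : ℤ))) := by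
    rw [Equiv.sum_comp e (fun o => o.elim (0 : I → ℤ)
      (fun j => dropHom i₀ (fun i => (d j.1 i : ℤ)))), Fintype.sum_option]
    simp [dl]
  rw [h1]
  unfold Dl
  rw [Matrix.adjugate_apply]
  refine det_hom fun c t' => ?_
  by_cases hc : c = e.symm none
  · rw [hc, Matrix.updateRow_self, Equiv.apply_symm_apply]
    rw [Pi.single_apply]
    split_ifs
    · exact isWeightedHomogeneous_one ℂ _
    · exact isWeightedHomogeneous_zero _ _ _
  · rw [Matrix.updateRow_ne hc]
    obtain ⟨j, hj⟩ : ∃ j, e c = some j := by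
      rw [← Option.ne_none_iff_exists']
      intro h
      exact hc (by rw [← h, Equiv.symm_apply_apply])
    rw [hj]
    have h2 : Bm F d e c t' = Mp π i₀ (F j.1) t' := by
      unfold Bm
      rw [Matrix.of_apply, hj]
      rfl
    rw [h2]
    exact Mp_hom (hF j.1) t'

/-- the evaluated matrix -/
noncomputable def Bz (F : J → MvPolynomial S ℂ) (d : J → I → ℕ)
    (e : {s // π s = i₀} ≃ Option {j // d j i₀ ≠ 0}) (z : S → ℂ) :
    Matrix {s // π s = i₀} {s // π s = i₀} ℂ :=
  (Bm F d e).map (eval z)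

lemma Bz_some (z : S → ℂ) (j : {j // d j i₀ ≠ 0}) (t : {s // π s = i₀}) :
    Bz F d e z (e.symm (some j)) t = eval z (Mp π i₀ (F j.1) t) := by
  unfold Bz Bm
  rw [Matrix.map_apply, Matrix.of_apply, Equiv.apply_symm_apply]
  rfl

lemma Bz_none (z : S → ℂ) (t : {s // π s = i₀}) :
    Bz F d e z (e.symm none) t = 0 := by
  unfold Bz Bm
  rw [Matrix.map_apply, Matrix.of_apply, Equiv.apply_symm_apply]
  exact map_zero _

open Classical in
lemma eval_Dl (z : S → ℂ) (t : {s // π s = i₀}) :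
    eval z (Dl F d e t) = (Bz F d e z).adjugate t (e.symm none) := by
  unfold Dl Bz
  have h1 := RingHom.map_adjugate (eval z) (Bm F d e)
  have h2 := congrFun (congrFun h1 t) (e.symm none)
  exact h2

open Classical in
lemma det_Bz (z : S → ℂ) : (Bz F d e z).det = 0 :=
  Matrix.det_eq_zero_of_row_eq_zero (e.symm none) (fun t => Bz_none z t)

lemma eval_Dl_glue (z : S → ℂ) (y : {s // π s = i₀} → ℂ) (t : {s // π s = i₀}) :
    eval (glue i₀ z y) (Dl F d e t) = eval z (Dl F d e t) := by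
  classical
  have h1 : Bz F d e (glue i₀ z y) = Bz F d e z := by
    funext c t'
    obtain ⟨o, rfl⟩ := e.symm.surjective c
    cases o with
    | none => rw [Bz_none, Bz_none]
    | some j => rw [Bz_some, Bz_some, eval_Mp_glue]
  rw [eval_Dl, eval_Dl, h1]

lemma sum_Dl (z : S → ℂ) (j : {j // d j i₀ ≠ 0}) :
    ∑ t, eval z (Dl F d e t) * eval z (Mp π i₀ (F j.1) t) = 0 := by
  classical
  have h1 := Matrix.mul_adjugate (Bz F d e z)
  rw [det_Bz, zero_smul] at h1
  have h2 := congrFun (congrFun h1 (e.symm (some j))) (e.symm none)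
  rw [Matrix.mul_apply, Matrix.zero_apply] at h2
  rw [← h2]
  refine Finset.sum_congr rfl fun t _ => ?_
  rw [Bz_some, eval_Dl, mul_comm]

lemma exists_ker (e : {s // π s = i₀} ≃ Option {j // d j i₀ ≠ 0}) (z : S → ℂ) :
    ∃ v : {s // π s = i₀} → ℂ, v ≠ 0 ∧
    ∀ j : {j // d j i₀ ≠ 0}, ∑ t, v t * eval z (Mp π i₀ (F j.1) t) = 0 := by
  classical
  obtain ⟨v, hv, hv0⟩ := Matrix.exists_mulVec_eq_zero_iff.mpr (det_Bz (F := F) (e := e) z)
  refine ⟨v, hv, fun j => ?_⟩
  have h2 := congrFun hv0 (e.symm (some j))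
  rw [Matrix.mulVec, dotProduct, Pi.zero_apply] at h2
  rw [← h2]
  refine Finset.sum_congr rfl fun t _ => ?_
  rw [Bz_some, mul_comm]

lemma ker_of_Dl (z : S → ℂ) {t : {s // π s = i₀}} (h : eval z (Dl F d e t) = 0) :
    ∃ v : {s // π s = i₀} → ℂ, v ≠ 0 ∧ v t = 0 ∧
      ∀ j : {j // d j i₀ ≠ 0}, ∑ t, v t * eval z (Mp π i₀ (F j.1) t) = 0 := by
  classical
  rw [eval_Dl, Matrix.adjugate_apply] at h
  obtain ⟨v, hv, hv0⟩ := Matrix.exists_mulVec_eq_zero_iff.mpr h
  refine ⟨v, hv, ?_, fun j => ?_⟩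
  · have h2 := congrFun hv0 (e.symm none)
    rw [Matrix.mulVec, dotProduct, Pi.zero_apply] at h2
    rw [← h2, Finset.sum_eq_single t]
    · rw [Matrix.updateRow_self, Pi.single_eq_same, one_mul]
    · intro b _ hb
      rw [Matrix.updateRow_self, Pi.single_apply, if_neg hb, zero_mul]
    · intro h; exact absurd (Finset.mem_univ t) h
  · have h2 := congrFun hv0 (e.symm (some j))
    rw [Matrix.mulVec, dotProduct, Pi.zero_apply] at h2
    rw [← h2]
    refine Finset.sum_congr rfl fun t _ => ?_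
    rw [Matrix.updateRow_ne (by
      intro h
      have := e.symm.injective h
      simp at this), Bz_some, mul_comm]

end Pool.Agent.H22.Sub
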