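import Pool.Agent.H22.Sub.Basic

/-!
# Sections, curves in infinite closed subsets
-/

set_option autoImplicit false

namespace Pool.Agent.H22.Sub

open MvPolynomial

variable {S I J : Type} {π : S → I} {X : Set (S → ℂ)}

lemma multiHom_one : MultiHom π (1 : MvPolynomial S ℂ) 0 := isWeightedHomogeneous_one ℂ (cdeg π)

lemma multiHom_X (s : S) : MultiHom π (MvPolynomial.X s : MvPolynomial S ℂ) (cdeg π s) :=
  isWeightedHomogeneous_X _ _ _

lemma MultiHom.mul {P Q : MvPolynomial S ℂ} {b c : I → ℤ} (hP : MultiHom π P b)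
    (hQ : MultiHom π Q c) : MultiHom π (P * Q) (b + c) := IsWeightedHomogeneous.mul hP hQ

lemma isSection_poly {P : MvPolynomial S ℂ} {b : I → ℤ} (hP : MultiHom π P b) :
    IsSection π X b (fun x => eval x P) := fun x _ =>
  ⟨b, 0, P, 1, hP, multiHom_one, by simp, by simp, fun y _ _ => by simp⟩

lemma IsSection.congr {b : I → ℤ} {t t' : (S → ℂ) → ℂ} (ht : IsSection π X b t)
    (h : ∀ x ∈ X, t' x = t x) : IsSection π X b t' := fun x hx => by
  obtain ⟨p, q, G, H, hG, hH, hpq, hx0, hs⟩ := ht x hx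
  exact ⟨p, q, G, H, hG, hH, hpq, hx0, fun y hy hy0 => by rw [h y hy, hs y hy hy0]⟩

lemma IsSection.mono {b : I → ℤ} {t : (S → ℂ) → ℂ} {Y : Set (S → ℂ)} (ht : IsSection π X b t)
    (h : Y ⊆ X) : IsSection π Y b t := fun x hx => by
  obtain ⟨p, q, G, H, hG, hH, hpq, hx0, hs⟩ := ht x (h hx)
  exact ⟨p, q, G, H, hG, hH, hpq, hx0, fun y hy hy0 => hs y (h hy) hy0⟩

lemma IsSection.mul {b b' : I → ℤ} {t t' : (S → ℂ) → ℂ} (ht : IsSection π X b t)
    (ht' : IsSection π X b' t') : IsSection π X (b + b') (fun x => t x * t' x) := fun x hx => by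
  obtain ⟨p, q, G, H, hG, hH, hpq, hx0, hs⟩ := ht x hx
  obtain ⟨p', q', G', H', hG', hH', hpq', hx0', hs'⟩ := ht' x hx
  refine ⟨p + p', q + q', G * G', H * H', hG.mul hG', hH.mul hH', ?_, ?_, fun y hy hy0 => ?_⟩
  · rw [hpq, hpq']; abel
  · rw [map_mul]; exact mul_ne_zero hx0 hx0'
  · rw [map_mul] at hy0
    simp only [map_mul]
    rw [hs y hy (left_ne_zero_of_mul hy0), hs' y hy (right_ne_zero_of_mul hy0),
      div_mul_div_comm]

lemma IsSection.one : IsSection π X (0 : I → ℤ) (fun _ => 1) := fun x _ =>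
  ⟨0, 0, 1, 1, multiHom_one, multiHom_one, by simp, by simp, fun y _ _ => by simp⟩

lemma IsSection.pow {b : I → ℤ} {t : (S → ℂ) → ℂ} (ht : IsSection π X b t) (k : ℕ) :
    IsSection π X (k • b) (fun x => t x ^ k) := by
  induction k with
  | zero =>
    rw [zero_smul]
    exact IsSection.one.congr fun x _ => by simp
  | succ k ih =>
    rw [succ_nsmul]
    exact (ih.mul ht).congr fun x _ => by rw [pow_succ]

lemma IsSection.inv {b : I → ℤ} {t : (S → ℂ) → ℂ} (ht : IsSection π X b t)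
    (h0 : ∀ x ∈ X, t x ≠ 0) : IsSection π X (-b) (fun x => (t x)⁻¹) := fun x hx => by
  obtain ⟨p, q, G, H, hG, hH, hpq, hx0, hs⟩ := ht x hx
  have hGx : eval x G ≠ 0 := by
    intro h
    apply h0 x hx
    rw [hs x hx hx0, h, zero_div]
  refine ⟨q + q, p + q, H * H, G * H, hH.mul hH, hG.mul hH, ?_, ?_, fun y hy hy0 => ?_⟩
  · rw [hpq]; abel
  · rw [map_mul]; exact mul_ne_zero hGx hx0
  · rw [map_mul] at hy0
    have hGy := left_ne_zero_of_mul hy0
    have hHy := right_ne_zero_of_mul hy0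
    simp only [map_mul]
    rw [hs y hy hHy]
    field_simp

lemma IsSection.zpow {b : I → ℤ} {t : (S → ℂ) → ℂ} (ht : IsSection π X b t)
    (h0 : ∀ x ∈ X, t x ≠ 0) (k : ℤ) : IsSection π X (k • b) (fun x => t x ^ k) := by
  obtain ⟨n, rfl | rfl⟩ := k.eq_nat_or_neg
  · rw [natCast_zsmul]
    exact (ht.pow n).congr fun x _ => by rw [zpow_natCast]
  · rw [neg_smul, natCast_zsmul, ← smul_neg]
    exact ((ht.inv h0).pow n).congr fun x _ => by rw [zpow_neg, zpow_natCast, inv_pow]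

lemma IsSection.prod {K : Type} (A : Finset K) {b : K → I → ℤ} {t : K → (S → ℂ) → ℂ}
    (ht : ∀ k ∈ A, IsSection π X (b k) (t k)) :
    IsSection π X (∑ k ∈ A, b k) (fun x => ∏ k ∈ A, t k x) := by
  classical
  induction A using Finset.induction_on with
  | empty => simpa using IsSection.one
  | insert k A hk ih =>
    rw [Finset.sum_insert hk]
    refine ((ht k (Finset.mem_insert_self _ _)).mul
      (ih fun l hl => ht l (Finset.mem_insert_of_mem hl))).congr fun x _ => ?_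
    rw [Finset.prod_insert hk]

/-! ### shifts -/

/-- shift by a unit -/
theorem nef_shift {a δ : I → ℤ} {u : (S → ℂ) → ℂ} (hu : IsSection π X δ u)
    (hu0 : ∀ x ∈ X, u x ≠ 0) (ha : IsNef π X a) : IsNef π X (a - δ) := by
  rintro C hC ⟨m, hm, s, hs, ⟨x₁, hx₁, hs₁⟩, ⟨x₂, hx₂, hs₂⟩⟩
  have hCX := hC.sub.subset
  refine ha C hC ⟨m, hm, fun x => s x * (u x)⁻¹ ^ m, ?_, ?_, ?_⟩
  · have h1 := hs.mul (((hu.inv hu0).mono hCX).pow m)
    have e : -(m • (a - δ)) + m • -δ = -(m • a) := by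
      rw [smul_sub, smul_neg]
      abel
    rw [e] at h1
    exact h1
  · exact ⟨x₁, hx₁, mul_ne_zero hs₁ (pow_ne_zero _ (inv_ne_zero (hu0 _ (hCX hx₁))))⟩
  · refine ⟨x₂, hx₂, ?_⟩
    beta_reduce
    rw [hs₂, zero_mul]

theorem semiample_shift {a δ : I → ℤ} {u : (S → ℂ) → ℂ} (hu : IsSection π X δ u)
    (hu0 : ∀ x ∈ X, u x ≠ 0) (ha : IsSemiample π X a) : IsSemiample π X (a + δ) := by
  intro x hx
  obtain ⟨m, hm, s, hs, hsx⟩ := ha x hx
  refine ⟨m, hm, fun x => s x * u x ^ m, ?_, mul_ne_zero hsx (pow_ne_zero _ (hu0 x hx))⟩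
  rw [smul_add]
  exact hs.mul (hu.pow m)

/-! ### polynomial maps -/

section General

variable {K L A B : Type} [AddCommGroup A] [AddCommGroup B]

/-- Homogeneity of a composition. -/
lemma comp_hom {D : K → A} {D' : L → B} {φ : A →+ B} {σ : K → MvPolynomial L ℂ}
    (hσ : ∀ i, IsWeightedHomogeneous D' (σ i) (φ (D i))) {G : MvPolynomial K ℂ} {b : A}
    (hG : IsWeightedHomogeneous D G b) : IsWeightedHomogeneous D' (aeval σ G) (φ b) := by
  induction hG using IsWeightedHomogeneous.induction_on with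
  | zero => rw [map_zero]; exact isWeightedHomogeneous_zero _ _ _
  | add p q hp hq h1 h2 => rw [map_add]; exact h1.add h2
  | monomial d c hd =>
    subst hd
    rw [aeval_monomial]
    have h1 : IsWeightedHomogeneous D' (d.prod fun i k => σ i ^ k)
        (∑ i ∈ d.support, d i • φ (D i)) := by
      rw [Finsupp.prod]
      exact IsWeightedHomogeneous.prod _ _ _ fun i _ => (hσ i).pow (d i)
    have h2 : φ (Finsupp.weight D d) = ∑ i ∈ d.support, d i • φ (D i) := by
      rw [Finsupp.weight_apply, Finsupp.sum, map_sum]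
      exact Finset.sum_congr rfl fun i _ => by rw [map_nsmul]
    rw [h2]
    exact h1.C_mul c

lemma eval_comp {σ : K → MvPolynomial L ℂ} (z : L → ℂ) (G : MvPolynomial K ℂ) :
    eval z (aeval σ G) = eval (fun i => eval z (σ i)) G := by
  induction G using MvPolynomial.induction_on with
  | C a => simp
  | add p q hp hq => rw [map_add, map_add, map_add, hp, hq]
  | mul_X p i hp => rw [map_mul, map_mul, map_mul, hp, aeval_X, eval_X]

end General

/-- Pullback of sections along a homogeneous polynomial map. -/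
lemma IsSection.comp {S' I' : Type} {π' : S' → I'} {φ : (I → ℤ) →+ (I' → ℤ)}
    {σ : S → MvPolynomial S' ℂ} (hσ : ∀ i, MultiHom π' (σ i) (φ (cdeg π i)))
    {X' : Set (S' → ℂ)} (hX : ∀ z ∈ X', (fun i => eval z (σ i)) ∈ X) {b : I → ℤ}
    {s : (S → ℂ) → ℂ} (hs : IsSection π X b s) :
    IsSection π' X' (φ b) (fun z => s (fun i => eval z (σ i))) := by
  intro z hz
  obtain ⟨p, q, G, H, hG, hH, hpq, hx0, hs⟩ := hs _ (hX z hz)
  refine ⟨φ p, φ q, aeval σ G, aeval σ H, comp_hom hσ hG, comp_hom hσ hH, ?_, ?_, ?_⟩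
  · rw [hpq, map_add]
  · rw [eval_comp]; exact hx0
  · intro y hy hy0
    rw [eval_comp] at hy0
    rw [eval_comp, eval_comp]
    exact hs _ (hX y hy) hy0

/-! ### curves -/

/-- ideal of polynomials vanishing on `C` -/
noncomputable def vanId (C : Set (S → ℂ)) : Ideal (MvPolynomial S ℂ) where
  carrier := {P | ∀ x ∈ C, eval x P = 0}
  zero_mem' := fun x _ => map_zero _
  add_mem' := fun {a b} ha hb x hx => by rw [map_add, ha x hx, hb x hx, add_zero]
  smul_mem' := fun c a ha x hx => by rw [smul_eq_mul, map_mul, ha x hx, mul_zero]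

lemma FinPts.mono {C C' : Set (S → ℂ)} (h : FinPts π C) (hC : C' ⊆ C) : FinPts π C' := by
  obtain ⟨E, hE, h⟩ := h
  exact ⟨E, hE, fun y hy => h y (hC hy)⟩

lemma FinPts.union {C C' : Set (S → ℂ)} (h : FinPts π C) (h' : FinPts π C') :
    FinPts π (C ∪ C') := by
  obtain ⟨E, hE, h⟩ := h
  obtain ⟨E', hE', h'⟩ := h'
  refine ⟨E ∪ E', hE.union hE', ?_⟩
  rintro y (hy | hy)
  · obtain ⟨z, hz, hzy⟩ := h y hy
    exact ⟨z, Or.inl hz, hzy⟩
  · obtain ⟨z, hz, hzy⟩ := h' y hy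
    exact ⟨z, Or.inr hz, hzy⟩

lemma IsSub.inter {C : Set (S → ℂ)} (hC : IsSub π X C) {P : MvPolynomial S ℂ} {b : I → ℤ}
    (hP : MultiHom π P b) : IsSub π X {x | x ∈ C ∧ eval x P = 0} := by
  obtain ⟨E, hE, rfl⟩ := hC
  refine ⟨insert P E, ?_, ?_⟩
  · rintro Q (rfl | hQ)
    · exact ⟨b, hP⟩
    · exact hE Q hQ
  · ext x
    constructor
    · rintro ⟨⟨hx, h1⟩, h2⟩
      refine ⟨hx, ?_⟩
      rintro Q (rfl | hQ)
      · exact h2
      · exact h1 Q hQ
    · rintro ⟨hx, h1⟩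
      exact ⟨⟨hx, fun Q hQ => h1 Q (Or.inr hQ)⟩, h1 P (Or.inl rfl)⟩

/-- An infinite closed subset contains an irreducible curve. -/
theorem exists_curve_in [Finite S] {Y : Set (S → ℂ)} (hY : IsSub π X Y)
    (hinf : ¬ FinPts π Y) : ∃ C, C ⊆ Y ∧ IsCurve π X C := by
  classical
  set A : Set (Ideal (MvPolynomial S ℂ)) :=
    {a | ∃ C, IsSub π X C ∧ C ⊆ Y ∧ ¬ FinPts π C ∧ a = vanId C} with hA
  have hne : A.Nonempty := ⟨vanId Y, Y, hY, subset_rfl, hinf, rfl⟩
  obtain ⟨a, ⟨C, hC, hCY, hCinf, rfl⟩, hmax⟩ :=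
    set_has_maximal_iff_noetherian.mpr (inferInstance : IsNoetherianRing (MvPolynomial S ℂ)) A hne
  have hmin : ∀ C' : Set (S → ℂ), IsSub π X C' → C' ⊆ C → C' ≠ C → FinPts π C' := by
    intro C' hC' hle hne'
    by_contra hfin
    apply hmax (vanId C') ⟨C', hC', hle.trans hCY, hfin, rfl⟩
    refine lt_of_le_of_ne (fun P hP x hx => hP x (hle hx)) ?_
    intro heq
    apply hne'
    refine Set.Subset.antisymm hle ?_
    obtain ⟨S, hS, rfl⟩ := hC'
    intro x hx
    refine ⟨hC.subset hx, fun P hP => ?_⟩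
    have h1 : P ∈ vanId {x | x ∈ X ∧ ∀ P ∈ S, eval x P = 0} := fun y hy => hy.2 P hP
    rw [← heq] at h1
    exact h1 x hx
  refine ⟨C, hCY, hC, ⟨?_, ?_⟩, hCinf, hmin⟩
  · by_contra hcon
    rw [Set.not_nonempty_iff_eq_empty] at hcon
    exact hCinf ⟨∅, Set.finite_empty, fun y hy => by
      rw [hcon] at hy; exact absurd hy (Set.notMem_empty y)⟩
  · intro P Q b c hP hQ hPQ
    by_contra hcon
    push Not at hcon
    obtain ⟨⟨x, hx, hxP⟩, ⟨y, hy, hyQ⟩⟩ := hcon
    apply hCinf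
    have h1 := hmin {x | x ∈ C ∧ eval x P = 0} (hC.inter hP) (fun z hz => hz.1) (by
      intro h
      rw [← h] at hx
      exact hxP hx.2)
    have h2 := hmin {x | x ∈ C ∧ eval x Q = 0} (hC.inter hQ) (fun z hz => hz.1) (by
      intro h
      rw [← h] at hy
      exact hyQ hy.2)
    refine (h1.union h2).mono fun z hz => ?_
    rcases mul_eq_zero.mp (hPQ z hz) with h | h
    · exact Or.inl ⟨hz, h⟩
    · exact Or.inr ⟨hz, h⟩

end Pool.Agent.H22.Sub
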