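import Pool.Agent.H22.Sub.Minors

/-!
# The elimination step
-/

set_option autoImplicit false
set_option linter.unusedSectionVars false

namespace Pool.Agent.H22.Sub

open MvPolynomial

variable {S I Λ J : Type} {π : S → I} {i₀ : I} {A : Finset I}
  {H : Λ → MvPolynomial S ℂ} {F : J → MvPolynomial S ℂ} {d : J → I → ℕ}

/-- the situation of the elimination step -/
structure Lin (π : S → I) (i₀ : I) (A : Finset I) (H : Λ → MvPolynomial S ℂ)
    (F : J → MvPolynomial S ℂ) (d : J → I → ℕ) : Prop where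
  hi₀ : i₀ ∈ A
  hF : ∀ j, MultiHom π (F j) (fun i => (d j i : ℤ))
  hH : ∀ l, ∃ b : I → ℤ, MultiHom π (H l) b ∧ b i₀ = 0
  hd1 : ∀ j, d j i₀ ≠ 0 → d j i₀ = 1
  hfin : ∀ x ∈ LocusA π A H F, FinPts π (fib π (LocusA π A H F) i₀ x)

/-- the conditions not involving the factor `i₀` -/
structure Base (π : S → I) (i₀ : I) (A : Finset I) (H : Λ → MvPolynomial S ℂ)
    (F : J → MvPolynomial S ℂ) (d : J → I → ℕ) (z : S → ℂ) : Prop where
  ne : ∀ i ∈ A, i ≠ i₀ → ∃ s, π s = i ∧ z s ≠ 0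
  g : ∀ l, eval z (H l) = 0
  out : ∀ s, π s ∉ A → z s = 0
  f : ∀ j, d j i₀ = 0 → eval z (F j) = 0

lemma base_of_mem {x : S → ℂ} (hx : x ∈ LocusA π A H F) : Base π i₀ A H F d x :=
  ⟨fun i hi _ => hx.1 i hi, hx.2.1, hx.2.2.1, fun j _ => hx.2.2.2 j⟩

variable [Fintype S] [Fintype {s // π s = i₀}] {e : {s // π s = i₀} ≃ Option {j // d j i₀ ≠ 0}}

lemma Lin.glue_mem (L : Lin π i₀ A H F d) {z : S → ℂ} (hz : Base π i₀ A H F d z)
    {y : {s // π s = i₀} → ℂ} (hy0 : y ≠ 0)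
    (hy : ∀ j : {j // d j i₀ ≠ 0}, ∑ t, y t * eval z (Mp π i₀ (F j.1) t) = 0) :
    glue i₀ z y ∈ LocusA π A H F := by
  classical
  refine ⟨fun i hi => ?_, fun l => ?_, fun s hs => ?_, fun j => ?_⟩
  · by_cases hii : i = i₀
    · subst hii
      obtain ⟨s, hs⟩ := Function.ne_iff.mp hy0
      exact ⟨s.1, s.2, by rw [glue_of_eq]; exact hs⟩
    · obtain ⟨s, hs, hxs⟩ := hz.ne i hi hii
      exact ⟨s, hs, by rw [glue_of_ne (by rw [hs]; exact hii)]; exact hxs⟩
  · obtain ⟨b, hb, hb0⟩ := L.hH l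
    rw [eval_glue_of_zero z hb hb0]
    exact hz.g l
  · rw [glue_of_ne]
    · exact hz.out s hs
    · rintro h
      rw [h] at hs
      exact hs L.hi₀
  · by_cases hj : d j i₀ = 0
    · rw [eval_glue_of_zero z (L.hF j) (by rw [hj]; rfl)]
      exact hz.f j hj
    · rw [eval_glue_lin (L.hF j) (by rw [L.hd1 j hj]; rfl)]
      exact hy ⟨j, hj⟩

lemma Lin.ker_self (L : Lin π i₀ A H F d) {x : S → ℂ} (hx : x ∈ LocusA π A H F)
    (j : {j // d j i₀ ≠ 0}) :
    ∑ t : {s // π s = i₀}, x t.1 * eval x (Mp π i₀ (F j.1) t) = 0 := by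
  rw [← eval_glue_lin (L.hF j.1) (by rw [L.hd1 j.1 j.2]; rfl) x (fun t => x t.1), glue_self]
  exact hx.2.2.2 j.1

lemma Lin.ker_zero (L : Lin π i₀ A H F d) {x : S → ℂ} (hx : x ∈ LocusA π A H F)
    {s : {s // π s = i₀}} (hs : x s.1 ≠ 0) {v : {s // π s = i₀} → ℂ} (hv : v s = 0)
    (hM : ∀ j : {j // d j i₀ ≠ 0}, ∑ t, v t * eval x (Mp π i₀ (F j.1) t) = 0) : v = 0 := by
  classical
  obtain ⟨E, hE, h⟩ := fib_vectors L.hi₀ hx (L.hfin x hx)
  have h1 : ∀ c : ℂ, ∃ z : E, ∃ k : ℂ,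
      (fun t : {s // π s = i₀} => x t.1) + c • v = k • z.1 := by
    intro c
    have h2 : (fun t : {s // π s = i₀} => x t.1) + c • v ≠ 0 := by
      intro h0
      have := congrFun h0 s
      simp only [Pi.add_apply, Pi.smul_apply, hv, smul_zero, add_zero, Pi.zero_apply] at this
      exact hs this
    have h3 := L.glue_mem (base_of_mem (d := d) hx) h2 (fun j => by
      simp only [Pi.add_apply, Pi.smul_apply, smul_eq_mul, add_mul, Finset.sum_add_distrib]
      rw [L.ker_self hx j]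
      simp only [mul_assoc]
      rw [← Finset.mul_sum, hM j, mul_zero, add_zero])
    obtain ⟨z, hz, k, hk⟩ := h _ h2 h3.2.1 h3.2.2.2
    exact ⟨⟨z, hz⟩, k, hk⟩
  choose z k hk using h1
  have := hE.to_subtype
  obtain ⟨c, c', hcc, hzz⟩ := Finite.exists_ne_map_eq_of_infinite z
  have h2 := hk c
  have h3 := hk c'
  rw [← hzz] at h3
  have h4 := congrFun h2 s
  have h5 := congrFun h3 s
  simp only [Pi.add_apply, Pi.smul_apply, hv, smul_eq_mul, mul_zero, add_zero] at h4 h5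
  have h6 : (z c).1 s ≠ 0 := by
    intro h0
    rw [h0, mul_zero] at h4
    exact hs h4
  have h7 : k c = k c' := mul_right_cancel₀ h6 (h4.symm.trans h5)
  have h8 : (c - c') • v = 0 := by
    rw [h7, ← h3] at h2
    have h9 := add_left_cancel h2
    rw [sub_smul, h9, sub_self]
  exact (smul_eq_zero.mp h8).resolve_left (sub_ne_zero.mpr hcc)

lemma Lin.minors (L : Lin π i₀ A H F d) {x : S → ℂ} (hx : x ∈ LocusA π A H F) :
    ∃ l : ℂ, l ≠ 0 ∧ ∀ t, eval x (Dl F d e t) = l * x t.1 := by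
  classical
  obtain ⟨s, hs, hxs⟩ := hx.1 i₀ L.hi₀
  have h1 : eval x (Dl F d e ⟨s, hs⟩) ≠ 0 := by
    intro h0
    obtain ⟨v, hv0, hv, hM⟩ := ker_of_Dl x h0
    exact hv0 (L.ker_zero hx (s := ⟨s, hs⟩) hxs hv hM)
  refine ⟨eval x (Dl F d e ⟨s, hs⟩) / x s, div_ne_zero h1 hxs, fun t => ?_⟩
  have h2 := L.ker_zero hx (s := ⟨s, hs⟩) hxs
    (v := fun t => x s * eval x (Dl F d e t) - eval x (Dl F d e ⟨s, hs⟩) * x t.1)
    (by ring) (fun j => by
      simp only [sub_mul, mul_assoc, Finset.sum_sub_distrib]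
      rw [← Finset.mul_sum, ← Finset.mul_sum, sum_Dl, L.ker_self hx j, mul_zero, mul_zero,
        sub_zero])
  have h3 := congrFun h2 t
  simp only [Pi.zero_apply] at h3
  rw [div_mul_eq_mul_div, eq_div_iff hxs]
  linear_combination h3

/-! ### the transfer -/

variable (π i₀ F d e) in
open Classical in
/-- the substitution of the minors -/
noncomputable def sg (s : S) : MvPolynomial S ℂ :=
  if h : π s = i₀ then Dl F d e ⟨s, h⟩ else MvPolynomial.X s

variable (π i₀) in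
open Classical in
/-- the restriction -/
noncomputable def rh (s : S) : MvPolynomial S ℂ :=
  if π s = i₀ then 0 else MvPolynomial.X s

/-- the map of classes -/
noncomputable def ph (i₀ : I) (δ : I → ℤ) : (I → ℤ) →+ (I → ℤ) where
  toFun a := dropHom i₀ a + a i₀ • δ
  map_zero' := by simp
  map_add' a b := by
    rw [map_add, Pi.add_apply, add_smul]
    abel

lemma ph_apply (δ a : I → ℤ) : ph i₀ δ a = dropHom i₀ a + a i₀ • δ := rfl

lemma pm_sg (z : S → ℂ) : pm (sg π i₀ F d e) z = glue i₀ z (fun t => eval z (Dl F d e t)) := by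
  funext s
  change eval z (sg π i₀ F d e s) = _
  unfold sg glue
  split_ifs with h
  · rfl
  · rw [eval_X]

lemma pm_rh (z : S → ℂ) : pm (rh π i₀) z = glue (π := π) i₀ z 0 := by
  funext s
  change eval z (rh π i₀ s) = _
  unfold rh glue
  split_ifs with h
  · rw [map_zero]; rfl
  · rw [eval_X]

theorem Lin.trans [Fintype {j // d j i₀ ≠ 0}] [DecidableEq I] (L : Lin π i₀ A H F d) :
    Trans π π (LocusA π A H F)
      (LocusA π (A.erase i₀) H (fun j : {j // d j i₀ = 0} => F j.1))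
      (rh π i₀) (sg π i₀ F d e) (dropHom i₀) (ph i₀ (dl d i₀)) where
  hρh s := by
    unfold rh
    split_ifs with h
    · exact isWeightedHomogeneous_zero _ _ _
    · rw [dropHom_cdeg_ne h]; exact multiHom_X s
  hσh s := by
    rw [ph_apply]
    unfold sg
    split_ifs with h
    · have h1 : cdeg π s i₀ = 1 := by simp only [cdeg]; rw [if_pos h]
      rw [h1, dropHom_cdeg_eq h, one_smul, zero_add]
      exact Dl_hom L.hF _
    · have h1 : cdeg π s i₀ = 0 := by simp only [cdeg]; rw [if_neg h]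
      rw [h1, dropHom_cdeg_ne h, zero_smul, add_zero]
      exact multiHom_X s
  hρ x hx := by
    rw [pm_rh]
    have h1 : ∀ s, π s ≠ i₀ → glue i₀ x 0 s = x s := fun s hs => glue_of_ne hs
    refine ⟨fun i hi => ?_, fun l => ?_, fun s hs => ?_, fun j => ?_⟩
    · obtain ⟨hi1, hi2⟩ := Finset.mem_erase.mp hi
      obtain ⟨s, hs, hxs⟩ := hx.1 i hi2
      exact ⟨s, hs, by rw [h1 s (by rw [hs]; exact hi1)]; exact hxs⟩
    · obtain ⟨b, hb, hb0⟩ := L.hH l
      rw [eval_glue_of_zero x hb hb0]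
      exact hx.2.1 l
    · by_cases h2 : π s = i₀
      · exact glue_of_eq (x := x) (y := 0) ⟨s, h2⟩
      · rw [h1 s h2]
        exact hx.2.2.1 s fun h3 => hs (Finset.mem_erase.mpr ⟨h2, h3⟩)
    · rw [eval_glue_of_zero x (L.hF j.1) (by rw [j.2]; rfl)]
      exact hx.2.2.2 j.1
  hσ z hz := by
    have hb : Base π i₀ A H F d z := by
      refine ⟨fun i hi hii => hz.1 i (Finset.mem_erase.mpr ⟨hii, hi⟩),
        hz.2.1, fun s hs => hz.2.2.1 s ?_, fun j hj => hz.2.2.2 ⟨j, hj⟩⟩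
      exact fun h => hs (Finset.mem_of_mem_erase h)
    obtain ⟨v, hv0, hv⟩ := exists_ker (F := F) e z
    have hx := L.glue_mem hb hv0 hv
    obtain ⟨l, hl, hl2⟩ := L.minors (e := e) hx
    rw [pm_sg]
    refine L.glue_mem hb ?_ (sum_Dl z)
    obtain ⟨t, ht⟩ := Function.ne_iff.mp hv0
    intro h0
    have h1 := congrFun h0 t
    have h2 := hl2 t
    rw [eval_Dl_glue, glue_of_eq] at h2
    have h3 : l * v t = 0 := h2.symm.trans h1
    exact (mul_ne_zero hl ht) h3
  hρσ z hz := by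
    rw [pm_sg, pm_rh, glue_glue]
    funext s
    by_cases h : π s = i₀
    · have h1 := glue_of_eq (x := z) (y := 0) ⟨s, h⟩
      rw [h1]
      exact (hz.2.2.1 s (by rw [h]; exact Finset.notMem_erase i₀ A)).symm
    · rw [glue_of_ne h]
  hσρ x hx := by
    rw [pm_rh, pm_sg, glue_glue]
    obtain ⟨l, hl, hl2⟩ := L.minors (e := e) hx
    refine ⟨fun i => if i = i₀ then l else 1, fun i => ?_, fun s => ?_⟩
    · beta_reduce; split_ifs
      · exact hl
      · exact one_ne_zero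
    · beta_reduce
      by_cases h : π s = i₀
      · rw [if_pos h]
        have h1 := glue_of_eq (x := x) (y := fun t => eval (glue (π := π) i₀ x 0) (Dl F d e t)) ⟨s, h⟩
        rw [h1, eval_Dl_glue, hl2]
      · rw [if_neg h, glue_of_ne h, one_mul]

/-- the unit section -/
theorem Lin.unit [Fintype {j // d j i₀ ≠ 0}] (L : Lin π i₀ A H F d)
    (e : {s // π s = i₀} ≃ Option {j // d j i₀ ≠ 0}) {a : I → ℤ} (ha : a i₀ = -1) :
    ∃ u, IsSection π (LocusA π A H F) (a - dropHom i₀ (ph i₀ (dl d i₀) a)) u ∧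
      ∀ x ∈ LocusA π A H F, u x ≠ 0 := by
  classical
  have h1 : ∀ x : S → ℂ, ∃ l : ℂ, x ∈ LocusA π A H F →
      (l ≠ 0 ∧ ∀ t, eval x (Dl F d e t) = l * x t.1) := by
    intro x
    by_cases hx : x ∈ LocusA π A H F
    · obtain ⟨l, hl⟩ := L.minors (e := e) hx
      exact ⟨l, fun _ => hl⟩
    · exact ⟨0, fun h => absurd h hx⟩
  choose u hu using h1
  refine ⟨u, fun x hx => ?_, fun x hx => (hu x hx).1⟩
  obtain ⟨s, hs, hxs⟩ := hx.1 i₀ L.hi₀
  refine ⟨dl d i₀, cdeg π s, Dl F d e ⟨s, hs⟩, MvPolynomial.X s, Dl_hom L.hF _, multiHom_X s,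
    ?_, ?_, fun y hy hy0 => ?_⟩
  · funext i
    rw [Pi.add_apply, Pi.sub_apply]
    by_cases hi : i = i₀
    · subst hi
      rw [dropHom_self, ha]
      have h2 : dl d i i = 0 := by
        unfold dl
        rw [Finset.sum_apply]
        exact Finset.sum_eq_zero fun j _ => dropHom_self _
      have h3 : cdeg π s i = 1 := by simp only [cdeg]; rw [if_pos hs]
      rw [h2, h3]; ring
    · rw [dropHom_ne _ hi, ph_apply, Pi.add_apply, dropHom_ne _ hi, Pi.smul_apply, ha]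
      have h3 : cdeg π s i = 0 := by
        simp only [cdeg]; rw [if_neg]; rw [hs]; exact fun h => hi h.symm
      rw [h3]
      simp
  · rwa [eval_X]
  · rw [eval_X] at hy0 ⊢
    rw [(hu y hy).2 ⟨s, hs⟩, mul_div_assoc, div_self hy0, mul_one]

end Pool.Agent.H22.Sub
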