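import Pool.Agent.H22.Sub.Sections

/-!
# Transfer of nefness and semiampleness along isomorphisms given by polynomial maps
(adapted from helper24's `Pool.Agent.H24.Ab.transfer`)
-/

set_option autoImplicit false

namespace Pool.Agent.H22.Sub

open MvPolynomial

variable {S I S' I' : Type} {π : S → I} {π' : S' → I'} {X : Set (S → ℂ)} {Y : Set (S' → ℂ)}

/-- the polynomial map given by `σ` -/
noncomputable def pm (σ : S → MvPolynomial S' ℂ) (z : S' → ℂ) : S → ℂ := fun s => eval z (σ s)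

lemma samePoint_map [Finite I'] {φ : (I → ℤ) →+ (I' → ℤ)} {σ : S → MvPolynomial S' ℂ}
    (hσ : ∀ s, MultiHom π' (σ s) (φ (cdeg π s))) {z w : S' → ℂ} (h : SamePoint π' z w) :
    SamePoint π (pm σ z) (pm σ w) := by
  classical
  have := Fintype.ofFinite I'
  obtain ⟨c, hc, h⟩ := h
  have h3 : w = fun s => c (π' s) * z s := funext h
  refine ⟨fun i => ∏ i', c i' ^ (φ (fun k => if i = k then 1 else 0) i'), fun i =>
    Finset.prod_ne_zero_iff.mpr fun i' _ => zpow_ne_zero _ (hc i'), fun i => ?_⟩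
  change eval w (σ i) = _
  rw [h3, eval_scale (hσ i) hc]
  rfl

/-- the data of a transfer -/
structure Trans (π : S → I) (π' : S' → I') (X : Set (S → ℂ)) (Y : Set (S' → ℂ))
    (ρ : S' → MvPolynomial S ℂ) (σ : S → MvPolynomial S' ℂ)
    (ι : (I' → ℤ) →+ (I → ℤ)) (φ : (I → ℤ) →+ (I' → ℤ)) : Prop where
  hρh : ∀ s, MultiHom π (ρ s) (ι (cdeg π' s))
  hσh : ∀ s, MultiHom π' (σ s) (φ (cdeg π s))
  hρ : ∀ x ∈ X, pm ρ x ∈ Y
  hσ : ∀ z ∈ Y, pm σ z ∈ X
  hρσ : ∀ z ∈ Y, pm ρ (pm σ z) = z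
  hσρ : ∀ x ∈ X, SamePoint π x (pm σ (pm ρ x))

variable {ρ : S' → MvPolynomial S ℂ} {σ : S → MvPolynomial S' ℂ}
    {ι : (I' → ℤ) →+ (I → ℤ)} {φ : (I → ℤ) →+ (I' → ℤ)}

theorem Trans.semiample (T : Trans π π' X Y ρ σ ι φ) {b : I' → ℤ} (hb : IsSemiample π' Y b) :
    IsSemiample π X (ι b) := by
  intro x hx
  obtain ⟨m, hm1, s, hs, hs0⟩ := hb _ (T.hρ x hx)
  refine ⟨m, hm1, fun x => s (pm ρ x), ?_, hs0⟩
  have h1 : IsSection π X (ι (m • b)) (fun x => s (pm ρ x)) := hs.comp T.hρh (X' := X) T.hρ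
  rwa [map_nsmul] at h1

theorem Trans.nef [Finite I] [Finite I'] (T : Trans π π' X Y ρ σ ι φ) {a : I → ℤ}
    {u : (S → ℂ) → ℂ} (hu : IsSection π X (a - ι (φ a)) u) (hu0 : ∀ x ∈ X, u x ≠ 0)
    (ha : IsNef π X a) : IsNef π' Y (φ a) := by
  classical
  rintro C' hC' ⟨m, hm1, s, hs, ⟨z₁, hz₁, hs₁⟩, ⟨z₂, hz₂, hs₂⟩⟩
  have hCX' : C' ⊆ Y := hC'.sub.subset
  set C : Set (S → ℂ) := {x | x ∈ X ∧ pm ρ x ∈ C'} with hC
  have hsub : IsSub π X C := by
    obtain ⟨E, hE, hCE⟩ := hC'.sub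
    refine ⟨(fun P => aeval ρ P) '' E, ?_, ?_⟩
    · rintro _ ⟨P, hP, rfl⟩
      obtain ⟨b, hb⟩ := hE P hP
      exact ⟨ι b, comp_hom T.hρh hb⟩
    · ext x
      rw [hC, hCE]
      constructor
      · rintro ⟨hx, -, hx2⟩
        refine ⟨hx, ?_⟩
        rintro _ ⟨P, hP, rfl⟩
        beta_reduce
        rw [eval_comp]
        exact hx2 P hP
      · rintro ⟨hx, hx2⟩
        refine ⟨hx, T.hρ x hx, fun P hP => ?_⟩
        have := hx2 _ ⟨P, hP, rfl⟩
        beta_reduce at this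
        rw [eval_comp] at this
        exact this
  have hsgC : ∀ z ∈ C', pm σ z ∈ C := fun z hz =>
    ⟨T.hσ z (hCX' hz), by rw [T.hρσ z (hCX' hz)]; exact hz⟩
  have hcurve : IsCurve π X C := by
    refine ⟨hsub, ⟨⟨pm σ z₁, hsgC z₁ hz₁⟩, ?_⟩, ?_, ?_⟩
    · intro P Q b c hP hQ hPQ
      have key : ∀ (P : MvPolynomial S ℂ) (b : I → ℤ), MultiHom π P b →
          (∀ z ∈ C', eval z (aeval σ P) = 0) → ∀ x ∈ C, eval x P = 0 := by
        intro P b hP h x hx
        have h1 := h _ hx.2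
        rw [eval_comp] at h1
        exact (eval_samePoint hP (T.hσρ x hx.1)).mp h1
      rcases hC'.irred.2 (aeval σ P) (aeval σ Q) (φ b) (φ c) (comp_hom T.hσh hP)
        (comp_hom T.hσh hQ) (fun z hz => by
          rw [eval_comp, eval_comp]
          exact hPQ _ (hsgC z hz)) with h | h
      · exact Or.inl (key P b hP h)
      · exact Or.inr (key Q c hQ h)
    · rintro ⟨E, hEf, hE⟩
      apply hC'.infinite
      refine ⟨pm ρ '' E, hEf.image _, ?_⟩
      intro z hz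
      obtain ⟨w, hw, h⟩ := hE _ (hsgC z hz)
      refine ⟨_, ⟨w, hw, rfl⟩, ?_⟩
      have h1 := samePoint_map T.hρh h
      rwa [T.hρσ z (hCX' hz)] at h1
    · intro C₁ hC₁ hle hne'
      have hsub' : IsSub π' Y {z | z ∈ Y ∧ pm σ z ∈ C₁} := by
        obtain ⟨E, hE, hCE⟩ := hC₁
        refine ⟨(fun P => aeval σ P) '' E, ?_, ?_⟩
        · rintro _ ⟨P, hP, rfl⟩
          obtain ⟨b, hb⟩ := hE P hP
          exact ⟨φ b, comp_hom T.hσh hb⟩
        · ext z
          rw [hCE]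
          constructor
          · rintro ⟨hz, -, hz2⟩
            refine ⟨hz, ?_⟩
            rintro _ ⟨P, hP, rfl⟩
            beta_reduce
            rw [eval_comp]
            exact hz2 P hP
          · rintro ⟨hz, hz2⟩
            refine ⟨hz, T.hσ z hz, fun P hP => ?_⟩
            have := hz2 _ ⟨P, hP, rfl⟩
            beta_reduce at this
            rw [eval_comp] at this
            exact this
      obtain ⟨E, hEf, hE⟩ := hC'.minimal _ hsub' (by
        rintro z ⟨hz, hz2⟩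
        have := (hle hz2).2
        rwa [T.hρσ z hz] at this) (by
        intro heq
        apply hne'
        refine Set.Subset.antisymm hle fun x hx => ?_
        have h1 : pm ρ x ∈ {z | z ∈ Y ∧ pm σ z ∈ C₁} := by
          rw [heq]; exact hx.2
        exact hC₁.mem_of_samePoint hx.1 h1.2 (T.hσρ x hx.1))
      refine ⟨pm σ '' E, hEf.image _, ?_⟩
      intro x hx
      have hxX : x ∈ X := (hle hx).1
      have h1 : pm σ (pm ρ x) ∈ C₁ :=
        hC₁.mem_of_samePoint (T.hσ _ (T.hρ x hxX)) hx (T.hσρ x hxX).symm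
      obtain ⟨w, hw, h⟩ := hE _ ⟨T.hρ x hxX, h1⟩
      exact ⟨_, ⟨w, hw, rfl⟩, (samePoint_map T.hσh h).trans (T.hσρ x hxX).symm⟩
  refine ha C hcurve ⟨m, hm1, fun x => s (pm ρ x) * (u x)⁻¹ ^ m, ?_, ?_, ?_⟩
  · have h1 : IsSection π C (ι (-(m • φ a))) (fun x => s (pm ρ x)) :=
      hs.comp T.hρh (X' := C) (fun x hx => hx.2)
    have h2 : IsSection π C (-(a - ι (φ a))) (fun x => (u x)⁻¹) :=
      (hu.inv hu0).mono fun x hx => hx.1
    have h3 := h1.mul (h2.pow m)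
    have e : ι (-(m • φ a)) + m • -(a - ι (φ a)) = -(m • a) := by
      rw [map_neg, map_nsmul, smul_neg, smul_sub]
      abel
    rw [e] at h3
    exact h3
  · refine ⟨pm σ z₁, hsgC z₁ hz₁, ?_⟩
    beta_reduce
    rw [T.hρσ z₁ (hCX' hz₁)]
    exact mul_ne_zero hs₁ (pow_ne_zero _ (inv_ne_zero (hu0 _ (T.hσ z₁ (hCX' hz₁)))))
  · refine ⟨pm σ z₂, hsgC z₂ hz₂, ?_⟩
    beta_reduce
    rw [T.hρσ z₂ (hCX' hz₂), hs₂, zero_mul]

end Pool.Agent.H22.Sub
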